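import Pool.Agent.Grz.E2
import Pool.Agent.LinU.Defs

/-!
# One product: definitions

`G = k + 6` gates with the residues `4 ^ g` modulo `M = 4 ^ G`: `0`, `1` = two copies of `s`,
`2 + j` = the product `j`, `k + 2`, .., `k + 5` = four clocks. The gates `0`, `2 + j`, `k + 2`,
`k + 3` are used in the first factor only, the gates `1`, `k + 4`, `k + 5` in the second one only.
-/

set_option autoImplicit false

namespace Pool.Agent.H63OA

open Finset Pool.Agent.Grz Pool.Agent.LinU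

/-- The iterates of definable maps on `N` bits, `2 ^ N ≤ B`, which are given by one matrix on the
even numbers and another one on the odd numbers, and the two matrices differ in one entry at most,
are in `DFun`. -/
def OneAnd : Prop :=
  ∀ (n : ℕ) (N B x t : (Fin n → ℕ) → ℕ) (T : ℕ → (Fin n → ℕ) → ℕ),
    DFun n N → DFun n B → DFun n x → DFun n t →
    DFun (n + 1) (fun w => T (w 0) fun i => w i.succ) →
    (∀ v, 2 ^ N v ≤ B v) → (∀ v z, z < 2 ^ N v → T z v < 2 ^ N v) →
    (∀ v, ∃ (A₀ A₁ : Matrix (Fin (N v)) (Fin (N v)) (ZMod 2)) (i₀ j₀ : Fin (N v)),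
      (∀ i j, (i, j) ≠ (i₀, j₀) → A₀ i j = A₁ i j) ∧ ∀ z, z < 2 ^ N v →
        vecOf 2 (N v) (T z v) = (if z % 2 = 0 then A₀ else A₁).mulVec (vecOf 2 (N v) z)) →
    (∀ v, x v < 2 ^ N v) → DFun n (fun v => (fun z => T z v)^[t v] (x v))

/-- the number of the gates -/
def gn (k : ℕ) : ℕ := k + 6

/-- the length of a block -/
def bl (k : ℕ) : ℕ := 4 ^ gn k

/-- the sequence with the cells `cell g n` at the places `n M + 4 ^ g` -/
def pseq (k : ℕ) (cell : ℕ → ℕ → ℕ) (τ : ℕ) : ℕ :=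
  ∑ g ∈ range (gn k), if τ % bl k = 4 ^ g then cell g (τ / bl k) else 0

/-- the delay from the gate `h` to the gate `g` -/
def del (k g h sh : ℕ) : ℕ := sh * bl k + 4 ^ g - 4 ^ h

/-- the values of the gates -/
def cell (k N : ℕ) (a b : ℕ → ℕ) (s : ℕ → ℕ) (g n : ℕ) : ℕ :=
  if g < 2 then s n else
    if g < k + 2 then (if N ≤ n + 1 then s (n + 1 - N + a (g - 2)) * s (n + 1 - N + b (g - 2)) else 0)
    else 1

/-- the edges of the first factor: target, source, shift, weight; `e = 3 j`, `3 j + 1`, `3 j + 2`,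
`j < k`, and `3 k + i`, `i < 4` -/
def tgA (k e : ℕ) : ℕ :=
  if e < 3 * k then (if e % 3 = 0 then 2 + e / 3 else e % 3 - 1) else k + 2 + (e - 3 * k)

def srA (k e : ℕ) : ℕ :=
  if e < 3 * k then (if e % 3 = 0 then 0 else 2 + e / 3) else if e = 3 * k then k + 3 else k + 2

def shA (k N : ℕ) (a : ℕ → ℕ) (e : ℕ) : ℕ :=
  if e < 3 * k then (if e % 3 = 0 then N - 1 - a (e / 3) else 1) else if e = 3 * k then 1 else 0

def wtA (k : ℕ) (c : ℕ → ℕ) (e : ℕ) : ℕ :=
  if e < 3 * k then (if e % 3 = 0 then 1 else c (e / 3)) else 1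

/-- the edges of the second factor: `e = j < k`, and `k + i`, `i < 6` -/
def tgB (k e : ℕ) : ℕ :=
  if e < k then 2 + e else if e < k + 2 then e - k else e

def srB (k e : ℕ) : ℕ :=
  if e < k then 1 else if e = k + 4 then k + 5 else k + 4

def shB (k N : ℕ) (b : ℕ → ℕ) (e : ℕ) : ℕ :=
  if e < k then N - 1 - b e else if e = k + 5 then 0 else 1

/-- the first factor, for the sequence `p` -/
def lineA (k N : ℕ) (a c : ℕ → ℕ) (p : ℕ → ℕ) (τ : ℕ) : ℕ :=
  (∑ e ∈ range (3 * k + 4), wtA k c e * p (τ - del k (tgA k e) (srA k e) (shA k N a e))) % 2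

/-- the second factor -/
def lineB (k N : ℕ) (b : ℕ → ℕ) (p : ℕ → ℕ) (τ : ℕ) : ℕ :=
  (∑ e ∈ range (k + 6), p (τ - del k (tgB k e) (srB k e) (shB k N b e))) % 2

end Pool.Agent.H63OA
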