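import Pool.Agent.H63OA.Main1
import Pool.Agent.LinU46.Two

/-!
# One product: the sequence and the map are definable
-/

set_option autoImplicit false

namespace Pool.Agent.H63OA

open Finset Pool.Agent.Grz Pool.Agent.GAvg Pool.Agent.PTr Pool.Agent.LinU Pool.Agent.LinU46

variable {m k : ℕ} {N x z τ i : (Fin m → ℕ) → ℕ} {a b c : ℕ → (Fin m → ℕ) → ℕ}

theorem bl_two (k : ℕ) : 2 ≤ bl k := by
  unfold bl gn
  calc 2 ≤ 4 ^ 1 := by norm_num
    _ ≤ 4 ^ (k + 6) := Nat.pow_le_pow_right (by norm_num) (by omega)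

theorem del_def {sh : (Fin m → ℕ) → ℕ} (h : DFun m sh) (g g' : ℕ) :
    DFun m (fun v => del k g g' (sh v)) := by
  unfold del
  exact ((h.mul (DFun.const _)).add (DFun.const _)).sub (DFun.const _)

theorem shA_def (hN : DFun m N) (ha : ∀ j, DFun m (a j)) (e : ℕ) :
    DFun m (fun v => shA k (N v) (fun j => a j v) e) := by
  unfold shA
  by_cases h1 : e < 3 * k
  · by_cases h2 : e % 3 = 0
    · simp only [if_pos h1, if_pos h2]
      exact (hN.sub (DFun.const 1)).sub (ha _)
    · simp only [if_pos h1, if_neg h2]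
      exact DFun.const 1
  · simp only [if_neg h1]
    split_ifs
    · exact DFun.const 1
    · exact DFun.const 0

theorem shB_def (hN : DFun m N) (hb : ∀ j, DFun m (b j)) (e : ℕ) :
    DFun m (fun v => shB k (N v) (fun j => b j v) e) := by
  unfold shB
  by_cases h1 : e < k
  · simp only [if_pos h1]
    exact (hN.sub (DFun.const 1)).sub (hb _)
  · simp only [if_neg h1]
    split_ifs
    · exact DFun.const 0
    · exact DFun.const 1

theorem wtA_def (hc : ∀ j, DFun m (c j)) (e : ℕ) : DFun m (fun v => wtA k (fun j => c j v) e) := by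
  unfold wtA
  by_cases h1 : e < 3 * k
  · by_cases h2 : e % 3 = 0
    · simp only [if_pos h1, if_pos h2]
      exact DFun.const 1
    · simp only [if_pos h1, if_neg h2]
      exact hc _
  · simp only [if_neg h1]
    exact DFun.const 1

theorem cell_def (hN : DFun m N) (hx : DFun m x) (ha : ∀ j, DFun m (a j))
    (hb : ∀ j, DFun m (b j)) (g : ℕ) (hi : DFun m i) :
    DFun m (fun v => cell k (N v) (fun j => a j v) (fun j => b j v) (dg 2 (x v)) g (i v)) := by
  have hd : ∀ {f : (Fin m → ℕ) → ℕ}, DFun m f → DFun m (fun v => dg 2 (x v) (f v)) := fun hf =>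
    dfun_dg (DFun.const 2) hx hf fun _ => le_rfl
  unfold cell
  by_cases h1 : g < 2
  · simp only [if_pos h1]
    exact hd hi
  · by_cases h2 : g < k + 2
    · simp only [if_neg h1, if_pos h2]
      have hn : DFun m (fun v => i v + 1 - N v) := (hi.add (DFun.const 1)).sub hN
      exact DFun.ite (Delta0.leFun hN (hi.add (DFun.const 1)))
        ((hd (hn.add (ha _))).mul (hd (hn.add (hb _)))) (DFun.const 0)
    · simp only [if_neg h1, if_neg h2]
      exact DFun.const 1

theorem pseq_def (hN : DFun m N) (hx : DFun m x) (ha : ∀ j, DFun m (a j))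
    (hb : ∀ j, DFun m (b j)) (hτ : DFun m τ) :
    DFun m (fun v => pseq k (cell k (N v) (fun j => a j v) (fun j => b j v) (dg 2 (x v)))
      (τ v)) := by
  unfold pseq
  have hM : ∀ _v : Fin m → ℕ, 0 < bl k := fun _ => bl_pos k
  exact dfun_sum_range _ fun g => DFun.ite
    (Delta0.eqFun (DFun.modPos hτ (DFun.const _) hM) (DFun.const _))
    (cell_def hN hx ha hb g (DFun.divPos hτ (DFun.const _) hM)) (DFun.const 0)

/-- the first factor for a window -/
def winA (k N : ℕ) (a c : ℕ → ℕ) (z : ℕ) : ℕ :=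
  (∑ e ∈ range (3 * k + 4), wtA k c e * dg 2 z (del k (tgA k e) (srA k e) (shA k N a e))) % 2

/-- the second factor for a window -/
def winB (k N : ℕ) (b : ℕ → ℕ) (z : ℕ) : ℕ :=
  (∑ e ∈ range (k + 6), dg 2 z (del k (tgB k e) (srB k e) (shB k N b e))) % 2

theorem winA_def (hN : DFun m N) (hz : DFun m z) (ha : ∀ j, DFun m (a j))
    (hc : ∀ j, DFun m (c j)) :
    DFun m (fun v => winA k (N v) (fun j => a j v) (fun j => c j v) (z v)) := by
  unfold winA
  exact DFun.modPos (dfun_sum_range _ fun e => (wtA_def hc e).mul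
    (dfun_dg (DFun.const 2) hz (del_def (shA_def hN ha e) _ _) fun _ => le_rfl)) (DFun.const 2)
    fun _ => two_pos

theorem winB_def (hN : DFun m N) (hz : DFun m z) (hb : ∀ j, DFun m (b j)) :
    DFun m (fun v => winB k (N v) (fun j => b j v) (z v)) := by
  unfold winB
  exact DFun.modPos (dfun_sum_range _ fun e =>
    dfun_dg (DFun.const 2) hz (del_def (shB_def hN hb e) _ _) fun _ => le_rfl) (DFun.const 2)
    fun _ => two_pos

theorem lineA_def (hN : DFun m N) (hx : DFun m x) (ha : ∀ j, DFun m (a j))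
    (hb : ∀ j, DFun m (b j)) (hc : ∀ j, DFun m (c j)) (hτ : DFun m τ) :
    DFun m (fun v => lineA k (N v) (fun j => a j v) (fun j => c j v)
      (pseq k (cell k (N v) (fun j => a j v) (fun j => b j v) (dg 2 (x v)))) (τ v)) := by
  unfold lineA
  exact DFun.modPos (dfun_sum_range _ fun e => (wtA_def hc e).mul
    (pseq_def hN hx ha hb (hτ.sub (del_def (shA_def hN ha e) _ _)))) (DFun.const 2)
    fun _ => two_pos

theorem lineB_def (hN : DFun m N) (hx : DFun m x) (ha : ∀ j, DFun m (a j))
    (hb : ∀ j, DFun m (b j)) (hτ : DFun m τ) :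
    DFun m (fun v => lineB k (N v) (fun j => b j v)
      (pseq k (cell k (N v) (fun j => a j v) (fun j => b j v) (dg 2 (x v)))) (τ v)) := by
  unfold lineB
  exact DFun.modPos (dfun_sum_range _ fun e =>
    pseq_def hN hx ha hb (hτ.sub (del_def (shB_def hN hb e) _ _))) (DFun.const 2)
    fun _ => two_pos

/-- the digits of the map -/
def gd (k N : ℕ) (a b c : ℕ → ℕ) (z i : ℕ) : ℕ :=
  if i = 0 then winA k N a c z else if i = 1 then winB k N b z else
    if i = 2 then dg 2 z 0 * dg 2 z 1 else dg 2 z (i - 1)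

/-- the map -/
def tm (k N : ℕ) (a b c : ℕ → ℕ) (z : ℕ) : ℕ :=
  ∑ i ∈ range (N * bl k + 2), gd k N a b c z i * 2 ^ i

/-- the digits of the start -/
def ed (k N : ℕ) (a b c : ℕ → ℕ) (x i : ℕ) : ℕ :=
  if i = 0 then lineA k N a c (pseq k (cell k N a b (dg 2 x))) (N * bl k) else
    if i = 1 then lineB k N b (pseq k (cell k N a b (dg 2 x))) (N * bl k) else
      pseq k (cell k N a b (dg 2 x)) (N * bl k + 1 - i)

/-- the start -/
def em (k N : ℕ) (a b c : ℕ → ℕ) (x : ℕ) : ℕ :=
  ∑ i ∈ range (N * bl k + 2), ed k N a b c x i * 2 ^ i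

theorem gd_def (hN : DFun m N) (hz : DFun m z) (ha : ∀ j, DFun m (a j))
    (hb : ∀ j, DFun m (b j)) (hc : ∀ j, DFun m (c j)) (hi : DFun m i) :
    DFun m (fun v => gd k (N v) (fun j => a j v) (fun j => b j v) (fun j => c j v) (z v)
      (i v)) := by
  have hd : ∀ {f : (Fin m → ℕ) → ℕ}, DFun m f → DFun m (fun v => dg 2 (z v) (f v)) := fun hf =>
    dfun_dg (DFun.const 2) hz hf fun _ => le_rfl
  unfold gd
  exact DFun.ite (Delta0.eqFun hi (DFun.const 0)) (winA_def hN hz ha hc)
    (DFun.ite (Delta0.eqFun hi (DFun.const 1)) (winB_def hN hz hb)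
      (DFun.ite (Delta0.eqFun hi (DFun.const 2)) ((hd (DFun.const 0)).mul (hd (DFun.const 1)))
        (hd (hi.sub (DFun.const 1)))))

theorem ed_def (hN : DFun m N) (hx : DFun m x) (ha : ∀ j, DFun m (a j))
    (hb : ∀ j, DFun m (b j)) (hc : ∀ j, DFun m (c j)) (hi : DFun m i) :
    DFun m (fun v => ed k (N v) (fun j => a j v) (fun j => b j v) (fun j => c j v) (x v)
      (i v)) := by
  have hL : DFun m (fun v => N v * bl k) := hN.mul (DFun.const _)
  unfold ed
  exact DFun.ite (Delta0.eqFun hi (DFun.const 0)) (lineA_def hN hx ha hb hc hL)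
    (DFun.ite (Delta0.eqFun hi (DFun.const 1)) (lineB_def hN hx ha hb hL)
      (pseq_def hN hx ha hb ((hL.add (DFun.const 1)).sub hi)))

theorem tm_def {B : (Fin m → ℕ) → ℕ} (hN : DFun m N) (hz : DFun m z) (ha : ∀ j, DFun m (a j))
    (hb : ∀ j, DFun m (b j)) (hc : ∀ j, DFun m (c j)) (hB : DFun m B)
    (h : ∀ v, 2 ^ (N v * bl k + 2) ≤ B v) :
    DFun m (fun v => tm k (N v) (fun j => a j v) (fun j => b j v) (fun j => c j v) (z v)) := by
  refine dfun_code (m := fun _ => 2) (d := fun v => N v * bl k + 2) (B := B)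
    (g := fun i v => gd k (N v) (fun j => a j v) (fun j => b j v) (fun j => c j v) (z v) i)
    (DFun.const 2) ((hN.mul (DFun.const _)).add (DFun.const 2)) hB ?_ (fun _ => le_rfl) h
  exact gd_def hN.weak hz.weak (a := fun j w => a j fun i => w i.succ) (fun j => (ha j).weak)
    (b := fun j w => b j fun i => w i.succ) (fun j => (hb j).weak)
    (c := fun j w => c j fun i => w i.succ) (fun j => (hc j).weak) (DFun.proj 0)

theorem em_def {B : (Fin m → ℕ) → ℕ} (hN : DFun m N) (hx : DFun m x) (ha : ∀ j, DFun m (a j))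
    (hb : ∀ j, DFun m (b j)) (hc : ∀ j, DFun m (c j)) (hB : DFun m B)
    (h : ∀ v, 2 ^ (N v * bl k + 2) ≤ B v) :
    DFun m (fun v => em k (N v) (fun j => a j v) (fun j => b j v) (fun j => c j v) (x v)) := by
  refine dfun_code (m := fun _ => 2) (d := fun v => N v * bl k + 2) (B := B)
    (g := fun i v => ed k (N v) (fun j => a j v) (fun j => b j v) (fun j => c j v) (x v) i)
    (DFun.const 2) ((hN.mul (DFun.const _)).add (DFun.const 2)) hB ?_ (fun _ => le_rfl) h
  exact ed_def hN.weak hx.weak (a := fun j w => a j fun i => w i.succ) (fun j => (ha j).weak)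
    (b := fun j w => b j fun i => w i.succ) (fun j => (hb j).weak)
    (c := fun j w => c j fun i => w i.succ) (fun j => (hc j).weak) (DFun.proj 0)

end Pool.Agent.H63OA
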