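import Pool.Agent.H63OA.Mx
import Pool.Agent.H80Q.Quad

/-!
# One product: the equivalence
-/

set_option autoImplicit false

namespace Pool.Agent.H63OA

open Finset Pool.Agent.Grz Pool.Agent.GAvg Pool.Agent.PTr Pool.Agent.LinU Pool.Agent.LinU46

/-- the coefficient functions, continued by zero -/
def ext {k n : ℕ} (a : Fin k → (Fin n → ℕ) → ℕ) (j : ℕ) (v : Fin n → ℕ) : ℕ :=
  if h : j < k then a ⟨j, h⟩ v else 0

theorem ext_def {k n : ℕ} {a : Fin k → (Fin n → ℕ) → ℕ} (h : ∀ j, DFun n (a j)) (j : ℕ) :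
    DFun n (ext a j) := by
  unfold ext
  by_cases hj : j < k
  · simp only [dif_pos hj]
    exact h _
  · simp only [dif_neg hj]
    exact DFun.const 0

theorem ext_val {k n : ℕ} (a : Fin k → (Fin n → ℕ) → ℕ) (j : Fin k) (v : Fin n → ℕ) :
    ext a j v = a j v := by
  unfold ext
  rw [dif_pos j.2]

/-- **Hardness.** -/
theorem quadRec_of_oneAnd (H : OneAnd) {k : ℕ} (hk : 1 ≤ k) : H80Q.QuadRec 2 k := by
  intro n N B x t a b c s hN hB hx ht ha hb hc hNB hab hs0 hs1
  have hN1 : ∀ v, 1 ≤ N v := fun v => by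
    have := (hab v ⟨0, hk⟩).1
    omega
  have hs2 : ∀ v i, s v i < 2 := by
    intro v i
    by_cases hi : i < N v
    · rw [hs0 v i hi]
      exact Nat.mod_lt _ two_pos
    · have h1 := hs1 v (i - N v)
      rw [Nat.sub_add_cancel (by omega)] at h1
      rw [h1]
      exact Nat.mod_lt _ two_pos
  have ha' : ∀ v, ∀ j < k, ext a j v < N v := by
    intro v j hj
    rw [show ext a j v = a ⟨j, hj⟩ v from ext_val a ⟨j, hj⟩ v]
    exact (hab v _).1
  have hb' : ∀ v, ∀ j < k, ext b j v < N v := by
    intro v j hj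
    rw [show ext b j v = b ⟨j, hj⟩ v from ext_val b ⟨j, hj⟩ v]
    exact (hab v _).2
  have hs' : ∀ v i, s v (i + N v) = (∑ j ∈ range k, ext c j v * s v (i + ext a j v) *
      s v (i + ext b j v)) % 2 := by
    intro v i
    rw [hs1 v i, ← Fin.sum_univ_eq_sum_range (fun j => ext c j v * s v (i + ext a j v) *
      s v (i + ext b j v))]
    congr 1
    refine sum_congr rfl fun j _ => ?_
    rw [ext_val, ext_val, ext_val]
  have hB' : DFun n (fun v => B v ^ bl k * 4) := (DFun.powConst hB _).mul (DFun.const 4)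
  have hbd : ∀ v, 2 ^ (N v * bl k + 2) ≤ B v ^ bl k * 4 := by
    intro v
    rw [pow_add, pow_mul]
    exact Nat.mul_le_mul (Nat.pow_le_pow_left (hNB v) _) (by norm_num)
  have h1 : DFun n (fun v => (fun z => tm k (N v) (fun j => ext a j v) (fun j => ext b j v)
      (fun j => ext c j v) z)^[(t v - N v) * bl k + 2]
        (em k (N v) (fun j => ext a j v) (fun j => ext b j v) (fun j => ext c j v) (x v))) := by
    refine H n (fun v => N v * bl k + 2) (fun v => B v ^ bl k * 4)
      (fun v => em k (N v) (fun j => ext a j v) (fun j => ext b j v) (fun j => ext c j v) (x v))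
      (fun v => (t v - N v) * bl k + 2)
      (fun z v => tm k (N v) (fun j => ext a j v) (fun j => ext b j v) (fun j => ext c j v) z)
      ((hN.mul (DFun.const _)).add (DFun.const 2)) hB'
      (em_def hN hx (ext_def ha) (ext_def hb) (ext_def hc) hB' hbd)
      (((ht.sub hN).mul (DFun.const _)).add (DFun.const 2)) ?_ hbd (fun v z _ => tm_lt z)
      (fun v => two_mx (hN1 v) (ha' v) (hb' v)) (fun v => em_lt)
    exact tm_def hN.weak (DFun.proj 0) (a := fun j w => ext a j fun i => w i.succ)
      (fun j => (ext_def ha j).weak) (b := fun j w => ext b j fun i => w i.succ)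
      (fun j => (ext_def hb j).weak) (c := fun j w => ext c j fun i => w i.succ)
      (fun j => (ext_def hc j).weak) hB'.weak (fun w => hbd fun i => w i.succ)
  have h2 := DFun.ite (Delta0.leFun hN ht) (dfun_dg (DFun.const 2) h1 (DFun.const 2)
    fun _ => le_rfl) (dfun_dg (DFun.const 2) hx ht fun _ => le_rfl)
  refine (show (fun v => s v (t v)) = _ from ?_) ▸ h2
  funext v
  by_cases h3 : N v ≤ t v
  · rw [if_pos h3]
    exact (orb_val (hN1 v) (ha' v) (hb' v) (hs2 v) (hs' v)
      (dg_em' (hN1 v) (ha' v) (hb' v) (hs2 v) fun i hi => (hs0 v i hi).symm) h3).symm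
  · rw [if_neg h3]
    exact hs0 v _ (by omega)

/-- **One product.** The maps on `N` bits which are given by one matrix on the even numbers and
another one on the odd numbers, the two matrices differing in one entry at most, decide whether
`Delta0` and `E2Star` are equal. -/
theorem oneAnd_iff :
    (∀ (n : ℕ) (R : (Fin n → ℕ) → Prop), Delta0 n R ↔ E2Star n R) ↔ OneAnd := by
  constructor
  · intro H n N B x t T hN hB hx ht hT hNB hTb _ hxb
    exact iter_of_eq (fun n R hR => (H n R).2 hR) (dfun_powLe (DFun.const 2) hN hB hNB) hx ht hT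
      hxb hTb
  · intro H
    obtain ⟨k₀, hk₀⟩ := H80Q.quad_contrast (m := 2) le_rfl
    exact (hk₀ (k₀ + 1) (by omega)).1 (quadRec_of_oneAnd H (by omega))

end Pool.Agent.H63OA
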