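import Pool.Agent.H63OA.Orb

/-!
# One product: the two matrices
-/

set_option autoImplicit false

namespace Pool.Agent.H63OA

open Finset Pool.Agent.Grz Pool.Agent.GAvg Pool.Agent.PTr Pool.Agent.LinU Pool.Agent.LinU46

theorem lin_row (L n z : ℕ) (w d : ℕ → ℕ) (hd : ∀ e < n, d e < L) :
    (((∑ e ∈ range n, w e * dg 2 z (d e)) % 2 : ℕ) : ZMod 2) =
      ∑ j ∈ range L, (∑ e ∈ range n, if d e = j then ((w e : ℕ) : ZMod 2) else 0) *
        ((dg 2 z j : ℕ) : ZMod 2) := by
  rw [ZMod.natCast_mod, Nat.cast_sum]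
  simp only [sum_mul]
  rw [sum_comm]
  refine sum_congr rfl fun e he => ?_
  rw [sum_eq_single (d e)]
  · rw [if_pos rfl, Nat.cast_mul]
  · intro j _ hj
    rw [if_neg (fun h => hj h.symm), zero_mul]
  · intro h
    exact absurd (mem_range.2 (hd e (mem_range.1 he))) h

/-- the entries of the two matrices, `q = 0` and `q = 1` -/
def ent (k N : ℕ) (a b c : ℕ → ℕ) (q i j : ℕ) : ZMod 2 :=
  if i = 0 then ∑ e ∈ range (3 * k + 4),
    (if del k (tgA k e) (srA k e) (shA k N a e) = j then ((wtA k c e : ℕ) : ZMod 2) else 0)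
  else if i = 1 then ∑ e ∈ range (k + 6),
    (if del k (tgB k e) (srB k e) (shB k N b e) = j then (((1 : ℕ) : ℕ) : ZMod 2) else 0)
  else if i = 2 then (if j = 1 then (q : ZMod 2) else 0) else if j + 1 = i then 1 else 0

/-- the two matrices -/
def mx (k N : ℕ) (a b c : ℕ → ℕ) (q : ℕ) :
    Matrix (Fin (N * bl k + 2)) (Fin (N * bl k + 2)) (ZMod 2) :=
  fun i j => ent k N a b c q i j

section

variable {k N : ℕ} {a b c : ℕ → ℕ}

theorem ent_eq {i j : ℕ} (h : ¬ (i = 2 ∧ j = 1)) : ent k N a b c 0 i j = ent k N a b c 1 i j := by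
  unfold ent
  by_cases h0 : i = 0
  · rw [if_pos h0, if_pos h0]
  · rw [if_neg h0, if_neg h0]
    by_cases h1 : i = 1
    · rw [if_pos h1, if_pos h1]
    · rw [if_neg h1, if_neg h1]
      by_cases h2 : i = 2
      · rw [if_pos h2, if_pos h2, if_neg (fun hj => h ⟨h2, hj⟩), if_neg (fun hj => h ⟨h2, hj⟩)]
      · rw [if_neg h2, if_neg h2]

theorem vec_tm (hN : 1 ≤ N) (ha : ∀ j < k, a j < N) (hb : ∀ j < k, b j < N) (z : ℕ) :
    vecOf 2 (N * bl k + 2) (tm k N a b c z) =
      (mx k N a b c (z % 2)).mulVec (vecOf 2 (N * bl k + 2) z) := by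
  obtain ⟨q, hq⟩ : ∃ q, q = z % 2 := ⟨_, rfl⟩
  have hbl := bl_two k
  have hL : 1 * bl k ≤ N * bl k := Nat.mul_le_mul_right _ hN
  funext i
  have h1 : vecOf 2 (N * bl k + 2) (tm k N a b c z) i = ((gd k N a b c z i : ℕ) : ZMod 2) := by
    unfold vecOf
    rw [dg_tm i.2]
  have h2 : (mx k N a b c (z % 2)).mulVec (vecOf 2 (N * bl k + 2) z) i =
      ∑ j ∈ range (N * bl k + 2), ent k N a b c q i j * ((dg 2 z j : ℕ) : ZMod 2) := by
    rw [← Fin.sum_univ_eq_sum_range, ← hq]
    rfl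
  rw [h1, h2]
  unfold gd ent
  by_cases h3 : (i : ℕ) = 0
  · simp only [if_pos h3]
    refine lin_row _ _ _ _ _ fun e he => ?_
    have := (okA hN ha he).del_le hN
    omega
  · simp only [if_neg h3]
    by_cases h4 : (i : ℕ) = 1
    · simp only [if_pos h4]
      unfold winB
      have h5 := lin_row (N * bl k + 2) (k + 6) z (fun _ => 1)
        (fun e => del k (tgB k e) (srB k e) (shB k N b e)) fun e he => by
          have := (okB hN hb he).del_le hN
          omega
      simp only [one_mul] at h5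
      exact h5
    · simp only [if_neg h4]
      by_cases h5 : (i : ℕ) = 2
      · simp only [if_pos h5]
        rw [sum_eq_single 1]
        · rw [if_pos rfl, Nat.cast_mul, hq, ← dg_zero_right]
        · intro j _ hj
          rw [if_neg hj, zero_mul]
        · intro h6
          exact absurd (mem_range.2 (by omega)) h6
      · simp only [if_neg h5]
        rw [sum_eq_single ((i : ℕ) - 1)]
        · rw [if_pos (by omega), one_mul]
        · intro j _ hj
          rw [if_neg (by omega), zero_mul]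
        · intro h6
          exact absurd (mem_range.2 (by have := i.2; omega)) h6

theorem two_mx (hN : 1 ≤ N) (ha : ∀ j < k, a j < N) (hb : ∀ j < k, b j < N) :
    ∃ (A₀ A₁ : Matrix (Fin (N * bl k + 2)) (Fin (N * bl k + 2)) (ZMod 2))
      (i₀ j₀ : Fin (N * bl k + 2)), (∀ i j, (i, j) ≠ (i₀, j₀) → A₀ i j = A₁ i j) ∧
        ∀ z, z < 2 ^ (N * bl k + 2) → vecOf 2 (N * bl k + 2) (tm k N a b c z) =
          (if z % 2 = 0 then A₀ else A₁).mulVec (vecOf 2 (N * bl k + 2) z) := by
  have hbl := bl_two k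
  have hL : 1 * bl k ≤ N * bl k := Nat.mul_le_mul_right _ hN
  refine ⟨mx k N a b c 0, mx k N a b c 1, ⟨2, by omega⟩, ⟨1, by omega⟩, fun i j hij => ?_,
    fun z _ => ?_⟩
  · refine ent_eq fun h => hij ?_
    rw [Prod.mk.injEq]
    exact ⟨Fin.ext h.1, Fin.ext h.2⟩
  · rw [vec_tm hN ha hb]
    rcases Nat.mod_two_eq_zero_or_one z with h | h
    · rw [if_pos h, h]
    · rw [if_neg (by omega), h]

end

end Pool.Agent.H63OA
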