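import Pool.Agent.H63OA.Main1
import Pool.Agent.LinU46.Two
import Pool.Agent.H80Q.Quad

/-!
# One product: the map

* `one`: the state at the time `τ ≥ N M` has the digits `lineA p τ`, `lineB p τ` and
  `p (τ + 1 - i)`, `2 ≤ i < N M + 2`. The map `one` is linear on the even numbers and on the odd
  numbers, and the two matrices differ in the entry `(2, 1)` only.
* `quadRec_of_oneAnd`: `OneAnd` implies the definability of the quadratic recurrences modulo `2`.
-/

set_option autoImplicit false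

namespace Pool.Agent.H63OA

open Finset Pool.Agent.Grz Pool.Agent.GAvg Pool.Agent.PTr Pool.Agent.LinU Pool.Agent.LinU46

/-- the place of the tap `e` of the first factor -/
def dA (k N : ℕ) (a : ℕ → ℕ) (e : ℕ) : ℕ := del k (tgA k e) (srA k e) (shA k N a e)

/-- the place of the tap `e` of the second factor -/
def dB (k N : ℕ) (b : ℕ → ℕ) (e : ℕ) : ℕ := del k (tgB k e) (srB k e) (shB k N b e)

/-- the digits of the next state -/
def go (k N : ℕ) (a b c : ℕ → ℕ) (z i : ℕ) : ℕ :=
  if i = 0 then (∑ e ∈ range (3 * k + 4), wtA k c e * dg 2 z (dA k N a e)) % 2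
  else if i = 1 then (∑ e ∈ range (k + 6), dg 2 z (dB k N b e)) % 2
  else if i = 2 then dg 2 z 0 * dg 2 z 1
  else dg 2 z (i - 1)

/-- the map -/
def one (k N : ℕ) (a b c : ℕ → ℕ) (z : ℕ) : ℕ :=
  ∑ i ∈ range (N * bl k + 2), go k N a b c z i * 2 ^ i

/-- the digits of the state at the time `τ` -/
def sd (k N : ℕ) (a b c : ℕ → ℕ) (p : ℕ → ℕ) (τ i : ℕ) : ℕ :=
  if i = 0 then lineA k N a c p τ else if i = 1 then lineB k N b p τ else p (τ + 1 - i)

/-- the state at the time `τ` -/
def so (k N : ℕ) (a b c : ℕ → ℕ) (p : ℕ → ℕ) (τ : ℕ) : ℕ :=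
  ∑ i ∈ range (N * bl k + 2), sd k N a b c p τ i * 2 ^ i

theorem go_lt (k N : ℕ) (a b c : ℕ → ℕ) (z i : ℕ) : go k N a b c z i < 2 := by
  unfold go
  split_ifs
  · exact Nat.mod_lt _ two_pos
  · exact Nat.mod_lt _ two_pos
  · have h0 := dg2_lt z 0
    have h1 := dg2_lt z 1
    interval_cases dg 2 z 0 <;> interval_cases dg 2 z 1 <;> norm_num
  · exact dg2_lt _ _

theorem one_lt (k N : ℕ) (a b c : ℕ → ℕ) (z : ℕ) : one k N a b c z < 2 ^ (N * bl k + 2) :=
  lt_code two_pos _ fun i _ => go_lt k N a b c z i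

theorem dg_one {k N : ℕ} {a b c : ℕ → ℕ} {z i : ℕ} (hi : i < N * bl k + 2) :
    dg 2 (one k N a b c z) i = go k N a b c z i :=
  dg_code two_pos (go k N a b c z) (fun i _ => go_lt k N a b c z i) hi

theorem pseq_lt {k : ℕ} {cl : ℕ → ℕ → ℕ} (h : ∀ g n, cl g n < 2) (τ : ℕ) : pseq k cl τ < 2 := by
  by_cases h0 : pseq k cl τ = 0
  · omega
  · obtain ⟨l, hl, h1⟩ := pseq_ne h0
    unfold pseq
    rw [sum_eq_single l]
    · rw [if_pos h1]
      exact h _ _
    · intro g _ hg
      rw [if_neg]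
      intro h2
      exact hg (pow4_inj (h2.symm.trans h1))
    · intro h2
      exact absurd (mem_range.2 hl) h2

theorem cell_lt {k N : ℕ} {a b s : ℕ → ℕ} (hs : ∀ i, s i < 2) (g n : ℕ) :
    cell k N a b s g n < 2 := by
  unfold cell
  split_ifs
  · exact hs _
  · have h0 := hs (n + 1 - N + a (g - 2))
    have h1 := hs (n + 1 - N + b (g - 2))
    interval_cases s (n + 1 - N + a (g - 2)) <;> interval_cases s (n + 1 - N + b (g - 2)) <;>
      norm_num
  · norm_num
  · norm_num

theorem sd_lt {k N : ℕ} {a b c p : ℕ → ℕ} (hp : ∀ i, p i < 2) (τ i : ℕ) :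
    sd k N a b c p τ i < 2 := by
  unfold sd
  split_ifs
  · exact Nat.mod_lt _ two_pos
  · exact Nat.mod_lt _ two_pos
  · exact hp _

theorem so_lt {k N : ℕ} {a b c p : ℕ → ℕ} (hp : ∀ i, p i < 2) (τ : ℕ) :
    so k N a b c p τ < 2 ^ (N * bl k + 2) :=
  lt_code two_pos _ fun i _ => sd_lt hp τ i

theorem dg_so {k N : ℕ} {a b c p : ℕ → ℕ} (hp : ∀ i, p i < 2) {τ i : ℕ} (hi : i < N * bl k + 2) :
    dg 2 (so k N a b c p τ) i = sd k N a b c p τ i :=
  dg_code two_pos (sd k N a b c p τ) (fun i _ => sd_lt hp τ i) hi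

theorem bl_ge (k : ℕ) : 16 ≤ bl k := by
  unfold bl gn
  have h1 : 4 ^ (k + 6) = 4 ^ k * 4096 := by rw [pow_add]; norm_num
  have h2 : 1 ≤ 4 ^ k := Nat.one_le_pow _ _ (by norm_num)
  omega

/-- The delays are at least `2`, forward. -/
theorem del_fwd {k N g h sh : ℕ} (hgh : h < g) (hg : g < gn k) (hsh : sh < N) :
    2 ≤ del k g h sh ∧ del k g h sh < N * bl k + 2 := by
  have h1 : 4 * 4 ^ h ≤ 4 ^ g := by
    rw [← pow_succ']
    exact Nat.pow_le_pow_right (by norm_num) hgh
  have h2 := four_le hg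
  have h3 : 1 ≤ 4 ^ h := Nat.one_le_pow _ _ (by norm_num)
  have h4 : (sh + 1) * bl k ≤ N * bl k := Nat.mul_le_mul_right _ hsh
  rw [add_mul, one_mul] at h4
  unfold del
  omega

/-- The delays are at least `2`, backward. -/
theorem del_bwd {k N g h : ℕ} (hgh : g < h) (hh : h < gn k) (hN : 1 ≤ N) :
    2 ≤ del k g h 1 ∧ del k g h 1 < N * bl k + 2 := by
  have h1 : 4 * 4 ^ g ≤ 4 ^ h := by
    rw [← pow_succ']
    exact Nat.pow_le_pow_right (by norm_num) hgh
  have h2 := four_le hh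
  have h3 : 1 ≤ 4 ^ g := Nat.one_le_pow _ _ (by norm_num)
  have h4 : 1 * bl k ≤ N * bl k := Nat.mul_le_mul_right _ hN
  rw [one_mul] at h4
  have h5 := bl_ge k
  unfold del
  rw [one_mul]
  omega

theorem dA_bounds {k N : ℕ} {a : ℕ → ℕ} (hN : 1 ≤ N) {e : ℕ}
    (he : e < 3 * k + 4) : 2 ≤ dA k N a e ∧ dA k N a e < N * bl k + 2 := by
  unfold dA tgA srA shA
  by_cases h1 : e < 3 * k
  · rw [if_pos h1, if_pos h1, if_pos h1]
    by_cases h2 : e % 3 = 0
    · rw [if_pos h2, if_pos h2, if_pos h2]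
      exact del_fwd (by omega) (by unfold gn; omega) (by omega)
    · rw [if_neg h2, if_neg h2, if_neg h2]
      exact del_bwd (by omega) (by unfold gn; omega) hN
  · rw [if_neg h1, if_neg h1, if_neg h1]
    by_cases h2 : e = 3 * k
    · rw [if_pos h2, if_pos h2]
      exact del_bwd (by omega) (by unfold gn; omega) hN
    · rw [if_neg h2, if_neg h2]
      exact del_fwd (by omega) (by unfold gn; omega) (by omega)

theorem dB_bounds {k N : ℕ} {b : ℕ → ℕ} (hN : 1 ≤ N) {e : ℕ}
    (he : e < k + 6) : 2 ≤ dB k N b e ∧ dB k N b e < N * bl k + 2 := by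
  unfold dB tgB srB shB
  by_cases h1 : e < k
  · rw [if_pos h1, if_pos h1, if_pos h1]
    exact del_fwd (by omega) (by unfold gn; omega) (by omega)
  · rw [if_neg h1, if_neg h1, if_neg h1]
    by_cases h2 : e < k + 2
    · rw [if_pos h2, if_neg (by omega : ¬ e = k + 4), if_neg (by omega : ¬ e = k + 5)]
      exact del_bwd (by omega) (by unfold gn; omega) hN
    · rw [if_neg h2]
      by_cases h3 : e = k + 4
      · rw [if_pos h3, if_neg (by omega : ¬ e = k + 5)]
        exact del_bwd (by omega) (by unfold gn; omega) hN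
      · rw [if_neg h3]
        by_cases h4 : e = k + 5
        · rw [if_pos h4]
          exact del_fwd (by omega) (by unfold gn; omega) (by omega)
        · rw [if_neg h4]
          exact del_bwd (by omega) (by unfold gn; omega) hN

/-- A step of the map. -/
theorem one_so {k N : ℕ} {a b c p : ℕ → ℕ} (hN : 1 ≤ N) (hp : ∀ i, p i < 2) {τ : ℕ}
    (h : p τ = lineA k N a c p τ * lineB k N b p τ) :
    one k N a b c (so k N a b c p τ) = so k N a b c p (τ + 1) := by
  have hM := bl_ge k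
  have hNM : 1 * bl k ≤ N * bl k := Nat.mul_le_mul_right _ hN
  rw [one_mul] at hNM
  have hw : ∀ d, 2 ≤ d → d < N * bl k + 2 → dg 2 (so k N a b c p τ) d = p (τ + 1 - d) := by
    intro d h2 hd
    rw [dg_so hp hd, sd, if_neg (by omega), if_neg (by omega)]
  show ∑ i ∈ range (N * bl k + 2), go k N a b c (so k N a b c p τ) i * 2 ^ i =
    ∑ i ∈ range (N * bl k + 2), sd k N a b c p (τ + 1) i * 2 ^ i
  refine sum_congr rfl fun i hi => ?_
  rw [mem_range] at hi
  congr 1
  unfold go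
  by_cases h0 : i = 0
  · rw [if_pos h0, sd, if_pos h0, lineA]
    congr 1
    refine sum_congr rfl fun e he => ?_
    obtain ⟨b1, b2⟩ := dA_bounds (a := a) hN (mem_range.1 he)
    rw [hw _ b1 b2, dA]
  · rw [if_neg h0]
    by_cases h1 : i = 1
    · rw [if_pos h1, sd, if_neg h0, if_pos h1, lineB]
      congr 1
      refine sum_congr rfl fun e he => ?_
      obtain ⟨b1, b2⟩ := dB_bounds (b := b) hN (mem_range.1 he)
      rw [hw _ b1 b2, dB]
    · rw [if_neg h1]
      by_cases h2 : i = 2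
      · rw [if_pos h2, sd, if_neg h0, if_neg h1, dg_so hp (by omega), dg_so hp (by omega), sd, sd,
          if_pos rfl, if_neg one_ne_zero, if_pos rfl, ← h]
        congr 1
        omega
      · rw [if_neg h2, sd, if_neg h0, if_neg h1, hw _ (by omega) (by omega)]
        congr 1
        omega

/-- the matrices -/
def mo (k N : ℕ) (a b c : ℕ → ℕ) (α : ZMod 2) :
    Matrix (Fin (N * bl k + 2)) (Fin (N * bl k + 2)) (ZMod 2) :=
  fun i j =>
    if (i : ℕ) = 0 then ∑ e ∈ range (3 * k + 4), (if (j : ℕ) = dA k N a e then (wtA k c e : ZMod 2)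
      else 0)
    else if (i : ℕ) = 1 then ∑ e ∈ range (k + 6), (if (j : ℕ) = dB k N b e then 1 else 0)
    else if (i : ℕ) = 2 then (if (j : ℕ) = 1 then α else 0)
    else (if (j : ℕ) = (i : ℕ) - 1 then 1 else 0)

theorem sum_pick {L d : ℕ} (hd : d < L) (w : ZMod 2) (f : ℕ → ZMod 2) :
    ∑ j ∈ range L, (if j = d then w else 0) * f j = w * f d := by
  rw [sum_eq_single d]
  · rw [if_pos rfl]
  · intro b _ hb
    rw [if_neg hb, zero_mul]
  · intro h
    exact absurd (mem_range.2 hd) h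

theorem vec_one {k N : ℕ} {a b c : ℕ → ℕ} (hN : 1 ≤ N) (z : ℕ) :
    vecOf 2 (N * bl k + 2) (one k N a b c z) =
      (mo k N a b c ((z % 2 : ℕ) : ZMod 2)).mulVec (vecOf 2 (N * bl k + 2) z) := by
  have hM := bl_ge k
  have hNM : 1 * bl k ≤ N * bl k := Nat.mul_le_mul_right _ hN
  rw [one_mul] at hNM
  funext i
  have h1 : vecOf 2 (N * bl k + 2) (one k N a b c z) i = ((go k N a b c z i : ℕ) : ZMod 2) := by
    unfold vecOf
    rw [dg_one i.2]
  have h2 : (mo k N a b c ((z % 2 : ℕ) : ZMod 2)).mulVec (vecOf 2 (N * bl k + 2) z) i =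
      ∑ j ∈ range (N * bl k + 2), (if (i : ℕ) = 0 then ∑ e ∈ range (3 * k + 4),
        (if j = dA k N a e then (wtA k c e : ZMod 2) else 0)
      else if (i : ℕ) = 1 then ∑ e ∈ range (k + 6), (if j = dB k N b e then 1 else 0)
      else if (i : ℕ) = 2 then (if j = 1 then ((z % 2 : ℕ) : ZMod 2) else 0)
      else (if j = (i : ℕ) - 1 then 1 else 0)) * ((dg 2 z j : ℕ) : ZMod 2) := by
    rw [← Fin.sum_univ_eq_sum_range]
    rfl
  rw [h1, h2]
  have hi := i.2
  unfold go
  by_cases h3 : (i : ℕ) = 0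
  · simp only [if_pos h3]
    rw [ZMod.natCast_mod, Nat.cast_sum]
    simp_rw [sum_mul]
    rw [sum_comm]
    refine sum_congr rfl fun e he => ?_
    rw [sum_pick (dA_bounds hN (mem_range.1 he)).2, Nat.cast_mul]
  · simp only [if_neg h3]
    by_cases h4 : (i : ℕ) = 1
    · simp only [if_pos h4]
      rw [ZMod.natCast_mod, Nat.cast_sum]
      simp_rw [sum_mul]
      rw [sum_comm]
      refine sum_congr rfl fun e he => ?_
      rw [sum_pick (dB_bounds hN (mem_range.1 he)).2, one_mul]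
    · simp only [if_neg h4]
      by_cases h5 : (i : ℕ) = 2
      · simp only [if_pos h5]
        rw [sum_pick (by omega), Nat.cast_mul, dg_zero_right]
      · simp only [if_neg h5]
        rw [sum_pick (by omega), one_mul]

theorem mo_eq {k N : ℕ} {a b c : ℕ → ℕ} {α β : ZMod 2} {i j : Fin (N * bl k + 2)}
    (h : ¬ ((i : ℕ) = 2 ∧ (j : ℕ) = 1)) : mo k N a b c α i j = mo k N a b c β i j := by
  unfold mo
  split_ifs
  · rfl
  · rfl
  · exact absurd ⟨by assumption, by assumption⟩ h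
  · rfl
  · rfl
  · rfl

/-- the digits of the first state -/
def s0 (k N : ℕ) (a b c : ℕ → ℕ) (x i : ℕ) : ℕ :=
  sd k N a b c (pseq k (cell k N a b (dg 2 x))) (N * bl k) i

theorem pseq_congr {k N : ℕ} {a b s s' : ℕ → ℕ} (ha : ∀ j < k, a j < N) (hb : ∀ j < k, b j < N)
    (hs : ∀ i < N, s i = s' i) {τ : ℕ} (h : τ < N * bl k) :
    pseq k (cell k N a b s) τ = pseq k (cell k N a b s') τ := by
  have hn : τ / bl k < N := (Nat.div_lt_iff_lt_mul (bl_pos k)).2 h
  unfold pseq
  refine sum_congr rfl fun g _ => ?_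
  split_ifs with h1
  · unfold cell
    by_cases h2 : g < 2
    · rw [if_pos h2, if_pos h2, hs _ hn]
    · rw [if_neg h2, if_neg h2]
      by_cases h3 : g < k + 2
      · rw [if_pos h3, if_pos h3]
        by_cases h4 : N ≤ τ / bl k + 1
        · have h5 : τ / bl k + 1 - N = 0 := by omega
          rw [if_pos h4, if_pos h4, h5, zero_add, zero_add, hs _ (ha _ (by omega)),
            hs _ (hb _ (by omega))]
        · rw [if_neg h4, if_neg h4]
      · rw [if_neg h3, if_neg h3]
  · rfl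

theorem line_congr {k N : ℕ} {a b c p p' : ℕ → ℕ} (hN : 1 ≤ N) (h : ∀ τ < N * bl k, p τ = p' τ) :
    lineA k N a c p (N * bl k) = lineA k N a c p' (N * bl k) ∧
      lineB k N b p (N * bl k) = lineB k N b p' (N * bl k) := by
  have hM := bl_ge k
  have hNM : 1 * bl k ≤ N * bl k := Nat.mul_le_mul_right _ hN
  rw [one_mul] at hNM
  constructor
  · unfold lineA
    congr 1
    refine sum_congr rfl fun e he => ?_
    have h1 := (dA_bounds (a := a) hN (mem_range.1 he)).1
    unfold dA at h1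
    rw [h _ (by omega)]
  · unfold lineB
    congr 1
    refine sum_congr rfl fun e he => ?_
    have h1 := (dB_bounds (b := b) hN (mem_range.1 he)).1
    unfold dB at h1
    rw [h _ (by omega)]

theorem so_start {k N : ℕ} {a b c s : ℕ → ℕ} {x : ℕ} (hN : 1 ≤ N) (ha : ∀ j < k, a j < N)
    (hb : ∀ j < k, b j < N) (hs : ∀ i < N, s i = dg 2 x i) :
    so k N a b c (pseq k (cell k N a b s)) (N * bl k) =
      ∑ i ∈ range (N * bl k + 2), s0 k N a b c x i * 2 ^ i := by
  have hp : ∀ τ < N * bl k, pseq k (cell k N a b s) τ = pseq k (cell k N a b (dg 2 x)) τ :=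
    fun τ h => pseq_congr ha hb hs h
  obtain ⟨h1, h2⟩ := line_congr (a := a) (b := b) (c := c) hN hp
  have hM := bl_ge k
  have hNM : 1 * bl k ≤ N * bl k := Nat.mul_le_mul_right _ hN
  rw [one_mul] at hNM
  unfold so
  refine sum_congr rfl fun i hi => ?_
  congr 1
  unfold s0 sd
  by_cases h3 : i = 0
  · rw [if_pos h3, if_pos h3, h1]
  · rw [if_neg h3, if_neg h3]
    by_cases h4 : i = 1
    · rw [if_pos h4, if_pos h4, h2]
    · rw [if_neg h4, if_neg h4, hp _ (by omega)]

/-- The orbit of the first state. -/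
theorem one_iter {k N : ℕ} {a b c s : ℕ → ℕ} {x : ℕ} (hN : 1 ≤ N) (ha : ∀ j < k, a j < N)
    (hb : ∀ j < k, b j < N) (hs2 : ∀ i, s i < 2) (hs : ∀ i < N, s i = dg 2 x i)
    (hrec : ∀ i, s (i + N) = (∑ j ∈ range k, c j * s (i + a j) * s (i + b j)) % 2) (t : ℕ) :
    (fun z => one k N a b c z)^[t] (∑ i ∈ range (N * bl k + 2), s0 k N a b c x i * 2 ^ i) =
      so k N a b c (pseq k (cell k N a b s)) (N * bl k + t) := by
  induction t with
  | zero => rw [Function.iterate_zero, id, add_zero, so_start hN ha hb hs]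
  | succ t ih =>
    rw [Function.iterate_succ_apply', ih, one_so hN (pseq_lt (cell_lt hs2))
      (pseq_rec hN ha hb hs2 hrec (Nat.le_add_right _ _)), add_assoc]

theorem one_read {k N : ℕ} {a b c s : ℕ → ℕ} {x : ℕ} (hN : 1 ≤ N) (ha : ∀ j < k, a j < N)
    (hb : ∀ j < k, b j < N) (hs2 : ∀ i, s i < 2) (hs : ∀ i < N, s i = dg 2 x i)
    (hrec : ∀ i, s (i + N) = (∑ j ∈ range k, c j * s (i + a j) * s (i + b j)) % 2) (t : ℕ) :
    s t = if t < N then dg 2 x t else
      dg 2 ((fun z => one k N a b c z)^[(t - N) * bl k + 2]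
        (∑ i ∈ range (N * bl k + 2), s0 k N a b c x i * 2 ^ i)) 2 := by
  have hM := bl_ge k
  have hNM : 1 * bl k ≤ N * bl k := Nat.mul_le_mul_right _ hN
  rw [one_mul] at hNM
  split_ifs with h
  · exact hs t h
  · rw [one_iter hN ha hb hs2 hs hrec, dg_so (pseq_lt (cell_lt hs2)) (by omega), sd,
      if_neg (by omega), if_neg (by omega)]
    have h1 : N * bl k + ((t - N) * bl k + 2) + 1 - 2 = bl k * t + 1 := by
      obtain ⟨u, rfl⟩ := Nat.exists_eq_add_of_le (not_lt.1 h)
      have h2 : N + u - N = u := by omega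
      rw [h2]
      have h3 : bl k * (N + u) = N * bl k + u * bl k := by ring
      omega
    rw [h1]
    have h2 : (bl k * t + 1) % bl k = 4 ^ 0 := by
      rw [Nat.mul_add_mod, pow_zero]
      exact Nat.mod_eq_of_lt (by omega)
    have h3 : (bl k * t + 1) / bl k = t := by
      rw [Nat.mul_add_div (by omega), Nat.div_eq_of_lt (by omega : 1 < bl k), add_zero]
    rw [pseq_at (by unfold gn; omega) h2, h3]
    rfl

section

variable {n : ℕ}

theorem dfun_del (k g h : ℕ) {sh : (Fin n → ℕ) → ℕ} (hsh : DFun n sh) :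
    DFun n (fun v => del k g h (sh v)) := by
  unfold del
  exact ((hsh.mul (DFun.const _)).add (DFun.const _)).sub (DFun.const _)

theorem dfun_dA (k e : ℕ) {N : (Fin n → ℕ) → ℕ} {a : ℕ → (Fin n → ℕ) → ℕ} (hN : DFun n N)
    (ha : ∀ j, DFun n (a j)) : DFun n (fun v => dA k (N v) (fun j => a j v) e) := by
  unfold dA
  refine dfun_del k _ _ ?_
  unfold shA
  by_cases h1 : e < 3 * k
  · simp only [if_pos h1]
    by_cases h2 : e % 3 = 0
    · simp only [if_pos h2]
      exact (hN.sub (DFun.const 1)).sub (ha _)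
    · simp only [if_neg h2]
      exact DFun.const 1
  · simp only [if_neg h1]
    exact DFun.const _

theorem dfun_dB (k e : ℕ) {N : (Fin n → ℕ) → ℕ} {b : ℕ → (Fin n → ℕ) → ℕ} (hN : DFun n N)
    (hb : ∀ j, DFun n (b j)) : DFun n (fun v => dB k (N v) (fun j => b j v) e) := by
  unfold dB
  refine dfun_del k _ _ ?_
  unfold shB
  by_cases h1 : e < k
  · simp only [if_pos h1]
    exact (hN.sub (DFun.const 1)).sub (hb _)
  · simp only [if_neg h1]
    exact DFun.const _

theorem dfun_wtA (k e : ℕ) {c : ℕ → (Fin n → ℕ) → ℕ} (hc : ∀ j, DFun n (c j)) :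
    DFun n (fun v => wtA k (fun j => c j v) e) := by
  unfold wtA
  by_cases h1 : e < 3 * k
  · simp only [if_pos h1]
    by_cases h2 : e % 3 = 0
    · simp only [if_pos h2]
      exact DFun.const 1
    · simp only [if_neg h2]
      exact hc _
  · simp only [if_neg h1]
    exact DFun.const 1

theorem dfun_dg2 {z i : (Fin n → ℕ) → ℕ} (hz : DFun n z) (hi : DFun n i) :
    DFun n (fun v => dg 2 (z v) (i v)) := dfun_dg (DFun.const 2) hz hi fun _ => le_rfl

theorem dfun_go (k : ℕ) {N z i : (Fin n → ℕ) → ℕ} {a b c : ℕ → (Fin n → ℕ) → ℕ} (hN : DFun n N)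
    (ha : ∀ j, DFun n (a j)) (hb : ∀ j, DFun n (b j)) (hc : ∀ j, DFun n (c j)) (hz : DFun n z)
    (hi : DFun n i) : DFun n (fun v => go k (N v) (fun j => a j v) (fun j => b j v)
      (fun j => c j v) (z v) (i v)) := by
  unfold go
  refine DFun.ite (Delta0.eqFun hi (DFun.const 0)) ?_
    (DFun.ite (Delta0.eqFun hi (DFun.const 1)) ?_
      (DFun.ite (Delta0.eqFun hi (DFun.const 2)) ?_ ?_))
  · exact DFun.modPos (dfun_sum_range _ fun e => (dfun_wtA k e hc).mul
      (dfun_dg2 hz (dfun_dA k e hN ha))) (DFun.const 2) fun _ => two_pos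
  · exact DFun.modPos (dfun_sum_range _ fun e => dfun_dg2 hz (dfun_dB k e hN hb)) (DFun.const 2)
      fun _ => two_pos
  · exact (dfun_dg2 hz (DFun.const 0)).mul (dfun_dg2 hz (DFun.const 1))
  · exact dfun_dg2 hz (hi.sub (DFun.const 1))

theorem dfun_one (k : ℕ) {N z B : (Fin n → ℕ) → ℕ} {a b c : ℕ → (Fin n → ℕ) → ℕ} (hN : DFun n N)
    (ha : ∀ j, DFun n (a j)) (hb : ∀ j, DFun n (b j)) (hc : ∀ j, DFun n (c j)) (hz : DFun n z)
    (hB : DFun n B) (h : ∀ v, 2 ^ (N v * bl k + 2) ≤ B v) :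
    DFun n (fun v => one k (N v) (fun j => a j v) (fun j => b j v) (fun j => c j v) (z v)) := by
  refine dfun_code (m := fun _ => 2) (d := fun v => N v * bl k + 2) (B := B)
    (g := fun i v => go k (N v) (fun j => a j v) (fun j => b j v) (fun j => c j v) (z v) i)
    (DFun.const 2) ((hN.mul (DFun.const _)).add (DFun.const 2)) hB ?_ (fun _ => le_rfl) h
  exact dfun_go k hN.weak (fun j => (ha j).weak) (fun j => (hb j).weak) (fun j => (hc j).weak)
    hz.weak (DFun.proj 0)

theorem dfun_cell (k g : ℕ) {N x i : (Fin n → ℕ) → ℕ} {a b : ℕ → (Fin n → ℕ) → ℕ}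
    (hN : DFun n N) (ha : ∀ j, DFun n (a j)) (hb : ∀ j, DFun n (b j)) (hx : DFun n x)
    (hi : DFun n i) :
    DFun n (fun v => cell k (N v) (fun j => a j v) (fun j => b j v) (dg 2 (x v)) g (i v)) := by
  unfold cell
  by_cases h1 : g < 2
  · simp only [if_pos h1]
    exact dfun_dg2 hx hi
  · simp only [if_neg h1]
    by_cases h2 : g < k + 2
    · simp only [if_pos h2]
      have h3 := (hi.add (DFun.const 1)).sub hN
      exact DFun.ite (Delta0.leFun hN (hi.add (DFun.const 1)))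
        ((dfun_dg2 hx (h3.add (ha _))).mul (dfun_dg2 hx (h3.add (hb _)))) (DFun.const 0)
    · simp only [if_neg h2]
      exact DFun.const 1

theorem dfun_pseq (k : ℕ) {N x τ : (Fin n → ℕ) → ℕ} {a b : ℕ → (Fin n → ℕ) → ℕ}
    (hN : DFun n N) (ha : ∀ j, DFun n (a j)) (hb : ∀ j, DFun n (b j)) (hx : DFun n x)
    (hτ : DFun n τ) :
    DFun n (fun v => pseq k (cell k (N v) (fun j => a j v) (fun j => b j v) (dg 2 (x v)))
      (τ v)) := by
  have hM := bl_pos k
  unfold pseq
  refine dfun_sum_range _ fun g => ?_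
  exact DFun.ite (Delta0.eqFun (DFun.modPos hτ (DFun.const _) fun _ => hM) (DFun.const _))
    (dfun_cell k g hN ha hb hx (DFun.divPos hτ (DFun.const _) fun _ => hM)) (DFun.const 0)

theorem dfun_s0 (k : ℕ) {N x i : (Fin n → ℕ) → ℕ} {a b c : ℕ → (Fin n → ℕ) → ℕ}
    (hN : DFun n N) (ha : ∀ j, DFun n (a j)) (hb : ∀ j, DFun n (b j)) (hc : ∀ j, DFun n (c j))
    (hx : DFun n x) (hi : DFun n i) : DFun n (fun v => s0 k (N v) (fun j => a j v)
      (fun j => b j v) (fun j => c j v) (x v) (i v)) := by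
  have hNM := hN.mul (DFun.const (bl k))
  unfold s0 sd
  refine DFun.ite (Delta0.eqFun hi (DFun.const 0)) ?_
    (DFun.ite (Delta0.eqFun hi (DFun.const 1)) ?_ ?_)
  · unfold lineA
    refine DFun.modPos (dfun_sum_range _ fun e => (dfun_wtA k e hc).mul ?_) (DFun.const 2)
      fun _ => two_pos
    exact dfun_pseq k hN ha hb hx (hNM.sub (dfun_dA k e hN ha))
  · unfold lineB
    refine DFun.modPos (dfun_sum_range _ fun e => ?_) (DFun.const 2) fun _ => two_pos
    exact dfun_pseq k hN ha hb hx (hNM.sub (dfun_dB k e hN hb))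
  · exact dfun_pseq k hN ha hb hx ((hNM.add (DFun.const 1)).sub hi)

end

theorem bound {N B M : ℕ} (h : 2 ^ N ≤ B) : 2 ^ (N * M + 2) ≤ 4 * B ^ M := by
  have h1 : 2 ^ (N * M + 2) = 4 * (2 ^ N) ^ M := by rw [pow_add, pow_mul]; ring
  rw [h1]
  exact Nat.mul_le_mul_left _ (Nat.pow_le_pow_left h M)

/-- Quadratic recurrences modulo `2` from one product. -/
theorem quadRec_of_oneAnd (H : OneAnd) {k : ℕ} (hk : 1 ≤ k) : H80Q.QuadRec 2 k := by
  intro n N B x t a b c s hN hB hx ht ha hb hc hNB hab hs0 hsrec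
  obtain ⟨a', ha'⟩ : ∃ a' : ℕ → (Fin n → ℕ) → ℕ,
      a' = fun j => if h : j < k then a ⟨j, h⟩ else fun _ => 0 := ⟨_, rfl⟩
  obtain ⟨b', hb'⟩ : ∃ b' : ℕ → (Fin n → ℕ) → ℕ,
      b' = fun j => if h : j < k then b ⟨j, h⟩ else fun _ => 0 := ⟨_, rfl⟩
  obtain ⟨c', hc'⟩ : ∃ c' : ℕ → (Fin n → ℕ) → ℕ,
      c' = fun j => if h : j < k then c ⟨j, h⟩ else fun _ => 0 := ⟨_, rfl⟩
  have haD : ∀ j, DFun n (a' j) := by
    intro j
    rw [ha']
    by_cases h : j < k
    · simp only [dif_pos h]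
      exact ha _
    · simp only [dif_neg h]
      exact DFun.const 0
  have hbD : ∀ j, DFun n (b' j) := by
    intro j
    rw [hb']
    by_cases h : j < k
    · simp only [dif_pos h]
      exact hb _
    · simp only [dif_neg h]
      exact DFun.const 0
  have hcD : ∀ j, DFun n (c' j) := by
    intro j
    rw [hc']
    by_cases h : j < k
    · simp only [dif_pos h]
      exact hc _
    · simp only [dif_neg h]
      exact DFun.const 0
  have hN1 : ∀ v, 1 ≤ N v := fun v => by
    have := (hab v ⟨0, hk⟩).1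
    omega
  have haN : ∀ v, ∀ j < k, a' j v < N v := by
    intro v j hj
    rw [ha']
    simp only [dif_pos hj]
    exact (hab v _).1
  have hbN : ∀ v, ∀ j < k, b' j v < N v := by
    intro v j hj
    rw [hb']
    simp only [dif_pos hj]
    exact (hab v _).2
  have hs2 : ∀ v i, s v i < 2 := by
    intro v i
    rcases Nat.lt_or_ge i (N v) with h | h
    · rw [hs0 v i h]
      exact dg2_lt _ _
    · obtain ⟨u, rfl⟩ := Nat.exists_eq_add_of_le h
      rw [add_comm, hsrec]
      exact Nat.mod_lt _ two_pos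
  have hrec : ∀ v i, s v (i + N v) =
      (∑ j ∈ range k, c' j v * s v (i + a' j v) * s v (i + b' j v)) % 2 := by
    intro v i
    rw [hsrec v i, Finset.sum_range]
    congr 1
    refine sum_congr rfl fun j _ => ?_
    rw [ha', hb', hc']
    simp only [dif_pos j.2]
  have hBB : DFun n (fun v => 4 * B v ^ bl k) := (DFun.const 4).mul (DFun.powConst hB _)
  have hbd : ∀ v, 2 ^ (N v * bl k + 2) ≤ 4 * B v ^ bl k := fun v => bound (hNB v)
  have hstart : DFun n (fun v => ∑ i ∈ range (N v * bl k + 2), s0 k (N v) (fun j => a' j v)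
      (fun j => b' j v) (fun j => c' j v) (x v) i * 2 ^ i) := by
    refine dfun_code (m := fun _ => 2) (d := fun v => N v * bl k + 2)
      (B := fun v => 4 * B v ^ bl k)
      (g := fun i v => s0 k (N v) (fun j => a' j v) (fun j => b' j v) (fun j => c' j v) (x v) i)
      (DFun.const 2) ((hN.mul (DFun.const _)).add (DFun.const 2)) hBB ?_ (fun _ => le_rfl) hbd
    exact dfun_s0 k hN.weak (fun j => (haD j).weak) (fun j => (hbD j).weak)
      (fun j => (hcD j).weak) hx.weak (DFun.proj 0)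
  have hlt0 : ∀ v, (∑ i ∈ range (N v * bl k + 2), s0 k (N v) (fun j => a' j v)
      (fun j => b' j v) (fun j => c' j v) (x v) i * 2 ^ i) < 2 ^ (N v * bl k + 2) := by
    intro v
    exact lt_code two_pos _ fun i _ =>
      sd_lt (pseq_lt (cell_lt fun i => dg2_lt (x v) i)) (N v * bl k) i
  have h1 : DFun n (fun v => (fun z => one k (N v) (fun j => a' j v) (fun j => b' j v)
      (fun j => c' j v) z)^[(t v - N v) * bl k + 2]
        (∑ i ∈ range (N v * bl k + 2), s0 k (N v) (fun j => a' j v)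
          (fun j => b' j v) (fun j => c' j v) (x v) i * 2 ^ i)) := by
    refine H n (fun v => N v * bl k + 2) (fun v => 4 * B v ^ bl k)
      (fun v => ∑ i ∈ range (N v * bl k + 2), s0 k (N v) (fun j => a' j v)
        (fun j => b' j v) (fun j => c' j v) (x v) i * 2 ^ i)
      (fun v => (t v - N v) * bl k + 2)
      (fun z v => one k (N v) (fun j => a' j v) (fun j => b' j v) (fun j => c' j v) z)
      ((hN.mul (DFun.const _)).add (DFun.const 2)) hBB hstart
      (((ht.sub hN).mul (DFun.const _)).add (DFun.const 2)) ?_ hbd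
      (fun v z _ => one_lt k _ _ _ _ z) (fun v => ?_) hlt0
    · exact dfun_one k hN.weak (fun j => (haD j).weak) (fun j => (hbD j).weak)
        (fun j => (hcD j).weak) (DFun.proj 0) hBB.weak fun w => hbd _
    · refine ⟨mo k (N v) (fun j => a' j v) (fun j => b' j v) (fun j => c' j v) 0,
        mo k (N v) (fun j => a' j v) (fun j => b' j v) (fun j => c' j v) 1,
        ⟨2, ?_⟩, ⟨1, ?_⟩, fun i j hij => mo_eq ?_, fun z _ => ?_⟩
      · have h2 := bl_ge k
        have h3 : 1 * bl k ≤ N v * bl k := Nat.mul_le_mul_right _ (hN1 v)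
        omega
      · omega
      · rintro ⟨h2, h3⟩
        exact hij (Prod.ext (Fin.ext h2) (Fin.ext h3))
      · rw [vec_one (hN1 v)]
        rcases Nat.mod_two_eq_zero_or_one z with h | h
        · rw [if_pos h, h, Nat.cast_zero]
        · rw [if_neg (by omega), h, Nat.cast_one]
  have h2 := DFun.ite (Delta0.ltFun ht hN) (dfun_dg2 hx ht) (dfun_dg2 h1 (DFun.const 2))
  refine (show (fun v => s v (t v)) = _ from ?_) ▸ h2
  funext v
  exact one_read (hN1 v) (haN v) (hbN v) (hs2 v) (hs0 v) (hrec v) (t v)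

/-- **One product.** -/
theorem oneAnd_iff :
    (∀ (n : ℕ) (R : (Fin n → ℕ) → Prop), Delta0 n R ↔ E2Star n R) ↔ OneAnd := by
  constructor
  · intro H n N B x t T hN hB hx ht hT hNB hTb _ hxb
    exact iter_of_eq (fun n R hR => (H n R).2 hR) (dfun_powLe (DFun.const 2) hN hB hNB) hx ht hT
      hxb hTb
  · intro H
    obtain ⟨k₀, hk₀⟩ := H80Q.quad_contrast (m := 2) le_rfl
    exact (hk₀ (max k₀ 1) (le_max_left _ _)).1 (quadRec_of_oneAnd H (le_max_right _ _))

end Pool.Agent.H63OA
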