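import Pool.Agent.H63OA.Df

/-!
# One product: the orbit of the window
-/

set_option autoImplicit false

namespace Pool.Agent.H63OA

open Finset Pool.Agent.Grz Pool.Agent.GAvg Pool.Agent.PTr Pool.Agent.LinU Pool.Agent.LinU46

theorem Ok.two_le {k N g h sh : ℕ} (H : Ok k N g h sh) : 2 ≤ del k g h sh := by
  obtain ⟨hne, hg, hh, H⟩ := H
  have h1 := four_le hh
  have hp : 0 < 4 ^ g := pow_pos (by norm_num) _
  have hp' : 0 < 4 ^ h := pow_pos (by norm_num) _
  unfold del
  by_cases hs : 1 ≤ sh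
  · have h2 : 1 * bl k ≤ sh * bl k := Nat.mul_le_mul_right _ hs
    omega
  · have hs0 : sh = 0 := by omega
    subst hs0
    have hlt : h < g := by
      rcases H with ⟨-, H | H⟩ | ⟨H, -⟩
      · exact H
      · omega
      · omega
    have h3 : 4 ^ (h + 1) ≤ 4 ^ g := Nat.pow_le_pow_right (by norm_num) hlt
    rw [pow_succ] at h3
    omega

theorem Ok.del_le {k N g h sh : ℕ} (hN : 1 ≤ N) (H : Ok k N g h sh) :
    del k g h sh ≤ N * bl k := by
  obtain ⟨h1, h2, -⟩ := H.bounds hN
  unfold del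
  omega

section

variable {k N : ℕ} {a b c s : ℕ → ℕ}

theorem cell_lt (hs2 : ∀ i, s i < 2) (g n : ℕ) : cell k N a b s g n < 2 := by
  have h1 : ∀ i j, s i * s j < 2 := by
    intro i j
    have h2 := Nat.mul_le_mul (Nat.le_of_lt_succ (hs2 i)) (Nat.le_of_lt_succ (hs2 j))
    omega
  unfold cell
  split_ifs
  · exact hs2 _
  · exact h1 _ _
  · norm_num
  · norm_num

theorem pseq_lt (hs2 : ∀ i, s i < 2) (τ : ℕ) : pseq k (cell k N a b s) τ < 2 := by
  by_cases h : ∃ x < gn k, τ % bl k = 4 ^ x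
  · obtain ⟨x, hx, hx'⟩ := h
    rw [pseq_at hx hx']
    exact cell_lt hs2 _ _
  · by_contra h1
    obtain ⟨l, hl, h2⟩ := pseq_ne (k := k) (cl := cell k N a b s) (τ := τ) (by omega)
    exact h ⟨l, hl, h2⟩

/-- the digits of the window at the time `τ` -/
def sd (k N : ℕ) (a b c : ℕ → ℕ) (s : ℕ → ℕ) (τ i : ℕ) : ℕ :=
  if i = 0 then lineA k N a c (pseq k (cell k N a b s)) τ else
    if i = 1 then lineB k N b (pseq k (cell k N a b s)) τ else
      pseq k (cell k N a b s) (τ + 1 - i)

theorem gd_lt (z i : ℕ) : gd k N a b c z i < 2 := by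
  have h0 : ∀ j, dg 2 z j < 2 := fun j => Nat.mod_lt _ two_pos
  have h1 := Nat.mul_le_mul (Nat.le_of_lt_succ (h0 0)) (Nat.le_of_lt_succ (h0 1))
  unfold gd
  split_ifs
  · exact Nat.mod_lt _ two_pos
  · exact Nat.mod_lt _ two_pos
  · omega
  · exact h0 _

theorem sd_lt (hs2 : ∀ i, s i < 2) (τ i : ℕ) : sd k N a b c s τ i < 2 := by
  unfold sd
  split_ifs
  · exact Nat.mod_lt _ two_pos
  · exact Nat.mod_lt _ two_pos
  · exact pseq_lt hs2 _

theorem dg_tm {z i : ℕ} (hi : i < N * bl k + 2) : dg 2 (tm k N a b c z) i = gd k N a b c z i :=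
  dg_code two_pos (gd k N a b c z) (fun i _ => gd_lt z i) hi

theorem tm_lt (z : ℕ) : tm k N a b c z < 2 ^ (N * bl k + 2) :=
  lt_code two_pos _ fun i _ => gd_lt z i

/-- one step -/
theorem step (hN : 1 ≤ N) (ha : ∀ j < k, a j < N) (hb : ∀ j < k, b j < N)
    (hs2 : ∀ i, s i < 2)
    (hs : ∀ i, s (i + N) = (∑ j ∈ range k, c j * s (i + a j) * s (i + b j)) % 2) {τ z : ℕ}
    (hτ : N * bl k ≤ τ) (hz : ∀ i < N * bl k + 2, dg 2 z i = sd k N a b c s τ i) :
    ∀ i < N * bl k + 2, dg 2 (tm k N a b c z) i = sd k N a b c s (τ + 1) i := by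
  intro i hi
  rw [dg_tm hi]
  have hbl := bl_two k
  have hL : 1 * bl k ≤ N * bl k := Nat.mul_le_mul_right _ hN
  have key : ∀ d, 2 ≤ d → d ≤ N * bl k → dg 2 z d = pseq k (cell k N a b s) (τ + 1 - d) := by
    intro d hd hd'
    rw [hz d (by omega)]
    unfold sd
    rw [if_neg (by omega), if_neg (by omega)]
  unfold gd
  rw [sd]
  by_cases h0 : i = 0
  · rw [if_pos h0, if_pos h0]
    unfold winA lineA
    congr 1
    refine sum_congr rfl fun e he => ?_
    have hok := okA hN ha (mem_range.1 he)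
    rw [key _ hok.two_le (hok.del_le hN)]
  · rw [if_neg h0, if_neg h0]
    by_cases h1 : i = 1
    · rw [if_pos h1, if_pos h1]
      unfold winB lineB
      congr 1
      refine sum_congr rfl fun e he => ?_
      have hok := okB hN hb (mem_range.1 he)
      rw [key _ hok.two_le (hok.del_le hN)]
    · rw [if_neg h1, if_neg h1]
      by_cases h2 : i = 2
      · rw [if_pos h2, h2, show τ + 1 + 1 - 2 = τ by omega, hz 0 (by omega), hz 1 (by omega)]
        unfold sd
        rw [if_pos rfl, if_neg (by norm_num : ¬ 1 = 0), if_pos rfl]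
        exact (pseq_rec hN ha hb hs2 hs hτ).symm
      · rw [if_neg h2, key (i - 1) (by omega) (by omega)]
        congr 1
        omega

/-- the orbit of the window -/
theorem orb (hN : 1 ≤ N) (ha : ∀ j < k, a j < N) (hb : ∀ j < k, b j < N)
    (hs2 : ∀ i, s i < 2)
    (hs : ∀ i, s (i + N) = (∑ j ∈ range k, c j * s (i + a j) * s (i + b j)) % 2) {z : ℕ}
    (hz : ∀ i < N * bl k + 2, dg 2 z i = sd k N a b c s (N * bl k) i) (u : ℕ) :
    ∀ i < N * bl k + 2, dg 2 ((tm k N a b c)^[u] z) i = sd k N a b c s (N * bl k + u) i := by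
  induction u with
  | zero => exact hz
  | succ u ih =>
    rw [Function.iterate_succ_apply']
    exact step hN ha hb hs2 hs (Nat.le_add_right _ _) ih

/-- the value of the sequence -/
theorem orb_val (hN : 1 ≤ N) (ha : ∀ j < k, a j < N) (hb : ∀ j < k, b j < N)
    (hs2 : ∀ i, s i < 2)
    (hs : ∀ i, s (i + N) = (∑ j ∈ range k, c j * s (i + a j) * s (i + b j)) % 2) {z : ℕ}
    (hz : ∀ i < N * bl k + 2, dg 2 z i = sd k N a b c s (N * bl k) i) {t : ℕ} (ht : N ≤ t) :
    dg 2 ((tm k N a b c)^[(t - N) * bl k + 2] z) 2 = s t := by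
  have hbl := bl_two k
  have hL : 1 * bl k ≤ N * bl k := Nat.mul_le_mul_right _ hN
  have e : N * bl k + (t - N) * bl k = t * bl k := by
    rw [← add_mul, Nat.add_sub_cancel' ht]
  rw [orb hN ha hb hs2 hs hz _ 2 (by omega)]
  unfold sd
  rw [if_neg (by norm_num), if_neg (by norm_num),
    show N * bl k + ((t - N) * bl k + 2) + 1 - 2 = 1 + bl k * t by
      rw [← add_assoc, e, mul_comm]; omega]
  have hlt : 1 < bl k := hbl
  rw [pseq_at (x := 0) (by unfold gn; omega)
    (by rw [Nat.add_mul_mod_self_left, Nat.mod_eq_of_lt hlt, pow_zero]),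
    Nat.add_mul_div_left _ _ (bl_pos k), Nat.div_eq_of_lt hlt, zero_add]
  unfold cell
  rw [if_pos (by norm_num)]

/-- the start -/
theorem dg_em' (hN : 1 ≤ N) (ha : ∀ j < k, a j < N) (hb : ∀ j < k, b j < N) {x : ℕ}
    (hs2 : ∀ i, s i < 2) (hx : ∀ i < N, dg 2 x i = s i) :
    ∀ i < N * bl k + 2, dg 2 (em k N a b c x) i = sd k N a b c s (N * bl k) i := by
  have hx2 : ∀ i, dg 2 x i < 2 := fun i => Nat.mod_lt _ two_pos
  have hbl := bl_two k
  have hL : 1 * bl k ≤ N * bl k := Nat.mul_le_mul_right _ hN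
  have hps : ∀ τ < N * bl k, pseq k (cell k N a b (dg 2 x)) τ = pseq k (cell k N a b s) τ := by
    intro τ hτ
    have hn : τ / bl k < N := (Nat.div_lt_iff_lt_mul (bl_pos k)).2 hτ
    unfold pseq
    refine sum_congr rfl fun g _ => ?_
    split_ifs
    · unfold cell
      split_ifs with h1 h2 h3
      · exact hx _ hn
      · rw [hx _ (by have := ha (g - 2) (by omega); omega),
          hx _ (by have := hb (g - 2) (by omega); omega)]
      · rfl
      · rfl
    · rfl
  intro i hi
  have hlt : ∀ i < N * bl k + 2, ed k N a b c x i < 2 := by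
    intro i _
    unfold ed
    split_ifs
    · exact Nat.mod_lt _ two_pos
    · exact Nat.mod_lt _ two_pos
    · exact pseq_lt hx2 _
  rw [show dg 2 (em k N a b c x) i = ed k N a b c x i from dg_code two_pos _ hlt hi]
  unfold ed sd
  by_cases h0 : i = 0
  · rw [if_pos h0, if_pos h0]
    unfold lineA
    congr 1
    refine sum_congr rfl fun e he => ?_
    have hok := okA hN ha (mem_range.1 he)
    rw [hps _ (by have := hok.two_le; omega)]
  · rw [if_neg h0, if_neg h0]
    by_cases h1 : i = 1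
    · rw [if_pos h1, if_pos h1]
      unfold lineB
      congr 1
      refine sum_congr rfl fun e he => ?_
      have hok := okB hN hb (mem_range.1 he)
      rw [hps _ (by have := hok.two_le; omega)]
    · rw [if_neg h1, if_neg h1]
      exact hps _ (by omega)

theorem em_lt {x : ℕ} : em k N a b c x < 2 ^ (N * bl k + 2) := by
  have hx2 : ∀ i, dg 2 x i < 2 := fun i => Nat.mod_lt _ two_pos
  refine lt_code two_pos _ fun i _ => ?_
  unfold ed
  split_ifs
  · exact Nat.mod_lt _ two_pos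
  · exact Nat.mod_lt _ two_pos
  · exact pseq_lt hx2 _

end

end Pool.Agent.H63OA
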