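import Pool.Agent.H63OA.Main

/-!
# One product: the exact form
-/

set_option autoImplicit false

namespace Pool.Agent.H63OA

open Finset Pool.Agent.Grz Pool.Agent.GAvg Pool.Agent.PTr Pool.Agent.LinU Pool.Agent.LinU46

/-- The iterates of the definable maps `T z = A z + z₀ z₁ e₂` on `N` bits, `2 ^ N ≤ B`, are in
`DFun`; here `z₀, z₁, ..` are the bits of `z`, and `A` is a matrix over `ℤ/2`, `e₂` the third unit
vector. -/
def OneProd : Prop :=
  ∀ (n : ℕ) (N B x t : (Fin n → ℕ) → ℕ) (T : ℕ → (Fin n → ℕ) → ℕ),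
    DFun n N → DFun n B → DFun n x → DFun n t →
    DFun (n + 1) (fun w => T (w 0) fun i => w i.succ) →
    (∀ v, 2 ^ N v ≤ B v) → (∀ v, 3 ≤ N v) → (∀ v z, z < 2 ^ N v → T z v < 2 ^ N v) →
    (∀ v, ∃ A : Matrix (Fin (N v)) (Fin (N v)) (ZMod 2), ∀ z, z < 2 ^ N v → ∀ i : Fin (N v),
      vecOf 2 (N v) (T z v) i = A.mulVec (vecOf 2 (N v) z) i +
        if (i : ℕ) = 2 then ((dg 2 z 0 * dg 2 z 1 : ℕ) : ZMod 2) else 0) →
    (∀ v, x v < 2 ^ N v) → DFun n (fun v => (fun z => T z v)^[t v] (x v))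

section

variable {k N : ℕ} {a b c : ℕ → ℕ}

theorem vec_prod (hN : 1 ≤ N) (ha : ∀ j < k, a j < N) (hb : ∀ j < k, b j < N) (z : ℕ)
    (i : Fin (N * bl k + 2)) : vecOf 2 (N * bl k + 2) (tm k N a b c z) i =
      (mx k N a b c 0).mulVec (vecOf 2 (N * bl k + 2) z) i +
        if (i : ℕ) = 2 then ((dg 2 z 0 * dg 2 z 1 : ℕ) : ZMod 2) else 0 := by
  have hbl := bl_two k
  have hL : 1 * bl k ≤ N * bl k := Nat.mul_le_mul_right _ hN
  rw [vec_tm hN ha hb]
  have h2 : ∀ q, (mx k N a b c q).mulVec (vecOf 2 (N * bl k + 2) z) i =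
      ∑ j ∈ range (N * bl k + 2), ent k N a b c q i j * ((dg 2 z j : ℕ) : ZMod 2) := by
    intro q
    rw [← Fin.sum_univ_eq_sum_range]
    rfl
  rw [h2, h2]
  by_cases h : (i : ℕ) = 2
  · rw [if_pos h, h, sum_eq_single 1, sum_eq_single 1]
    · unfold ent
      rw [if_neg (by norm_num), if_neg (by norm_num), if_pos rfl, if_pos rfl,
        if_neg (by norm_num), if_neg (by norm_num), if_pos rfl, if_pos rfl, Nat.cast_zero,
        zero_mul, zero_add, Nat.cast_mul, ← dg_zero_right]
    · intro j _ hj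
      unfold ent
      rw [if_neg (by norm_num), if_neg (by norm_num), if_pos rfl, if_neg hj, zero_mul]
    · intro h6
      exact absurd (mem_range.2 (by omega)) h6
    · intro j _ hj
      unfold ent
      rw [if_neg (by norm_num), if_neg (by norm_num), if_pos rfl, if_neg hj, zero_mul]
    · intro h6
      exact absurd (mem_range.2 (by omega)) h6
  · rw [if_neg h, add_zero]
    refine sum_congr rfl fun j _ => ?_
    rcases Nat.mod_two_eq_zero_or_one z with h1 | h1
    · rw [h1]
    · rw [h1, ent_eq (fun h3 => h h3.1)]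

end

/-- **Hardness.** -/
theorem quadRec_of_oneProd (H : OneProd) {k : ℕ} (hk : 1 ≤ k) : H80Q.QuadRec 2 k := by
  intro n N B x t a b c s hN hB hx ht ha hb hc hNB hab hs0 hs1
  have hN1 : ∀ v, 1 ≤ N v := fun v => by
    have := (hab v ⟨0, hk⟩).1
    omega
  have hs2 : ∀ v i, s v i < 2 := by
    intro v i
    by_cases hi : i < N v
    · rw [hs0 v i hi]
      exact Nat.mod_lt _ two_pos
    · have h1 := hs1 v (i - N v)
      rw [Nat.sub_add_cancel (by omega)] at h1
      rw [h1]
      exact Nat.mod_lt _ two_pos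
  have ha' : ∀ v, ∀ j < k, ext a j v < N v := by
    intro v j hj
    rw [show ext a j v = a ⟨j, hj⟩ v from ext_val a ⟨j, hj⟩ v]
    exact (hab v _).1
  have hb' : ∀ v, ∀ j < k, ext b j v < N v := by
    intro v j hj
    rw [show ext b j v = b ⟨j, hj⟩ v from ext_val b ⟨j, hj⟩ v]
    exact (hab v _).2
  have hs' : ∀ v i, s v (i + N v) = (∑ j ∈ range k, ext c j v * s v (i + ext a j v) *
      s v (i + ext b j v)) % 2 := by
    intro v i
    rw [hs1 v i, ← Fin.sum_univ_eq_sum_range (fun j => ext c j v * s v (i + ext a j v) *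
      s v (i + ext b j v))]
    congr 1
    refine sum_congr rfl fun j _ => ?_
    rw [ext_val, ext_val, ext_val]
  have hB' : DFun n (fun v => B v ^ bl k * 4) := (DFun.powConst hB _).mul (DFun.const 4)
  have hbd : ∀ v, 2 ^ (N v * bl k + 2) ≤ B v ^ bl k * 4 := by
    intro v
    rw [pow_add, pow_mul]
    exact Nat.mul_le_mul (Nat.pow_le_pow_left (hNB v) _) (by norm_num)
  have h1 : DFun n (fun v => (fun z => tm k (N v) (fun j => ext a j v) (fun j => ext b j v)
      (fun j => ext c j v) z)^[(t v - N v) * bl k + 2]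
        (em k (N v) (fun j => ext a j v) (fun j => ext b j v) (fun j => ext c j v) (x v))) := by
    refine H n (fun v => N v * bl k + 2) (fun v => B v ^ bl k * 4)
      (fun v => em k (N v) (fun j => ext a j v) (fun j => ext b j v) (fun j => ext c j v) (x v))
      (fun v => (t v - N v) * bl k + 2)
      (fun z v => tm k (N v) (fun j => ext a j v) (fun j => ext b j v) (fun j => ext c j v) z)
      ((hN.mul (DFun.const _)).add (DFun.const 2)) hB'
      (em_def hN hx (ext_def ha) (ext_def hb) (ext_def hc) hB' hbd)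
      (((ht.sub hN).mul (DFun.const _)).add (DFun.const 2)) ?_ hbd (fun v => ?_)
      (fun v z _ => tm_lt z)
      (fun v => ⟨_, fun z _ i => vec_prod (hN1 v) (ha' v) (hb' v) z i⟩) (fun v => em_lt)
    · exact tm_def hN.weak (DFun.proj 0) (a := fun j w => ext a j fun i => w i.succ)
        (fun j => (ext_def ha j).weak) (b := fun j w => ext b j fun i => w i.succ)
        (fun j => (ext_def hb j).weak) (c := fun j w => ext c j fun i => w i.succ)
        (fun j => (ext_def hc j).weak) hB'.weak (fun w => hbd fun i => w i.succ)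
    · have h3 := bl_two k
      have h4 : 1 * bl k ≤ N v * bl k := Nat.mul_le_mul_right _ (hN1 v)
      show 3 ≤ N v * bl k + 2
      omega
  have h2 := DFun.ite (Delta0.leFun hN ht) (dfun_dg (DFun.const 2) h1 (DFun.const 2)
    fun _ => le_rfl) (dfun_dg (DFun.const 2) hx ht fun _ => le_rfl)
  refine (show (fun v => s v (t v)) = _ from ?_) ▸ h2
  funext v
  by_cases h3 : N v ≤ t v
  · rw [if_pos h3]
    exact (orb_val (hN1 v) (ha' v) (hb' v) (hs2 v) (hs' v)
      (dg_em' (hN1 v) (ha' v) (hb' v) (hs2 v) fun i hi => (hs0 v i hi).symm) h3).symm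
  · rw [if_neg h3]
    exact hs0 v _ (by omega)

/-- **One product.** The iterates of the definable maps `T z = A z + z₀ z₁ e₂` on `N` bits decide
whether `Delta0` and `E2Star` are equal. -/
theorem oneProd_iff :
    (∀ (n : ℕ) (R : (Fin n → ℕ) → Prop), Delta0 n R ↔ E2Star n R) ↔ OneProd := by
  constructor
  · intro H n N B x t T hN hB hx ht hT hNB _ hTb _ hxb
    exact iter_of_eq (fun n R hR => (H n R).2 hR) (dfun_powLe (DFun.const 2) hN hB hNB) hx ht hT
      hxb hTb
  · intro H
    obtain ⟨k₀, hk₀⟩ := H80Q.quad_contrast (m := 2) le_rfl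
    exact (hk₀ (k₀ + 1) (by omega)).1 (quadRec_of_oneProd H (by omega))

end Pool.Agent.H63OA
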