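import Pool.Agent.H63OA.Def
import Pool.Agent.LinU.PD

/-!
# One product: the recurrence (pure)
-/

set_option autoImplicit false

namespace Pool.Agent.H63OA

open Finset Pool.Agent.Grz Pool.Agent.LinU

theorem pow4_sum {n a : ℕ} (h : a < n) :
    ∑ l ∈ range n, (if a = l then 1 else 0) * 4 ^ l = 4 ^ a := by
  rw [sum_eq_single_of_mem a (mem_range.2 h)]
  · rw [if_pos rfl, one_mul]
  · intro l _ hl
    rw [if_neg (fun h => hl h.symm), zero_mul]

theorem cnt3 {a b c d e f : ℕ} (h : 4 ^ a + 4 ^ b + 4 ^ c = 4 ^ d + 4 ^ e + 4 ^ f) (i : ℕ) :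
    (if a = i then 1 else 0) + (if b = i then 1 else 0) + (if c = i then 1 else 0) =
      (if d = i then 1 else 0) + (if e = i then 1 else 0) + (if f = i then 1 else 0) := by
  obtain ⟨n, hn⟩ : ∃ n, n = a + b + c + d + e + f + i + 1 := ⟨_, rfl⟩
  have key : ∀ x y z : ℕ, x < n → y < n → z < n → 4 ^ x + 4 ^ y + 4 ^ z = ∑ l ∈ range n,
      ((if x = l then 1 else 0) + (if y = l then 1 else 0) + (if z = l then 1 else 0)) * 4 ^ l := by
    intro x y z hx hy hz
    simp only [add_mul, sum_add_distrib]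
    rw [pow4_sum hx, pow4_sum hy, pow4_sum hz]
  have hlt : ∀ x y z : ℕ, ∀ l < n, ((if x = l then 1 else 0) + (if y = l then 1 else 0) +
      (if z = l then 1 else 0) : ℕ) < 4 := by
    intro x y z l _
    split_ifs <;> omega
  have h1 := dg_code (m := 4) (by norm_num) (fun l => (if a = l then 1 else 0) +
    (if b = l then 1 else 0) + (if c = l then 1 else 0)) (hlt a b c) (j := i) (by omega : i < n)
  have h2 := dg_code (m := 4) (by norm_num) (fun l => (if d = l then 1 else 0) +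
    (if e = l then 1 else 0) + (if f = l then 1 else 0)) (hlt d e f) (j := i) (by omega : i < n)
  rw [← key a b c (by omega) (by omega) (by omega)] at h1
  rw [← key d e f (by omega) (by omega) (by omega)] at h2
  rw [h] at h1
  exact h1.symm.trans h2

theorem pow4_inj {a b : ℕ} (h : 4 ^ a = 4 ^ b) : a = b :=
  Nat.pow_right_injective (le_refl 2 |>.trans (by norm_num)) h

theorem sum2 {x h l g : ℕ} (he : 4 ^ x + 4 ^ h = 4 ^ l + 4 ^ g) (hne : h ≠ g) : x = g ∧ l = h := by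
  have h1 := cnt3 (a := x) (b := h) (c := 0) (d := l) (e := g) (f := 0) (by omega) g
  rw [if_neg hne, if_pos (rfl : g = g)] at h1
  have h2 : x = g := by
    by_contra hx
    rw [if_neg hx] at h1
    omega
  refine ⟨h2, ?_⟩
  rw [h2] at he
  exact (pow4_inj (by omega : 4 ^ h = 4 ^ l)).symm

theorem four_le {k g : ℕ} (hg : g < gn k) : 4 * 4 ^ g ≤ bl k := by
  unfold bl
  rw [← pow_succ']
  exact Nat.pow_le_pow_right (by norm_num) hg

theorem bl_pos (k : ℕ) : 0 < bl k := pow_pos (by norm_num) _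

section

variable {k : ℕ} {cl : ℕ → ℕ → ℕ}

theorem pseq_at {τ x : ℕ} (hx : x < gn k) (h : τ % bl k = 4 ^ x) :
    pseq k cl τ = cl x (τ / bl k) := by
  unfold pseq
  rw [sum_eq_single_of_mem x (mem_range.2 hx)]
  · rw [if_pos h]
  · intro g _ hg
    rw [if_neg]
    intro h1
    exact hg (pow4_inj (h1.symm.trans h))

theorem pseq_ne {τ : ℕ} (h : pseq k cl τ ≠ 0) : ∃ l < gn k, τ % bl k = 4 ^ l := by
  unfold pseq at h
  obtain ⟨l, hl, h1⟩ := exists_ne_zero_of_sum_ne_zero h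
  refine ⟨l, mem_range.1 hl, ?_⟩
  by_contra h2
  exact h1 (if_neg h2)

/-- admissible edges -/
def Ok (k N g h sh : ℕ) : Prop :=
  g ≠ h ∧ g < gn k ∧ h < gn k ∧ ((sh + 1 ≤ N ∧ (h < g ∨ 1 ≤ sh)) ∨ (sh = 1 ∧ g < h))

theorem Ok.bounds {N g h sh : ℕ} (hN : 1 ≤ N) (H : Ok k N g h sh) :
    4 ^ h ≤ sh * bl k + 4 ^ g ∧ sh * bl k + 4 ^ g ≤ N * bl k + 4 ^ h ∧ sh ≤ N := by
  obtain ⟨-, hg, hh, H⟩ := H
  have h1 := four_le hg
  have h2 := four_le hh
  have hp : 0 < 4 ^ g := pow_pos (by norm_num) _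
  have hp' : 0 < 4 ^ h := pow_pos (by norm_num) _
  rcases H with ⟨H1, H2⟩ | ⟨rfl, H2⟩
  · have h3 : (sh + 1) * bl k ≤ N * bl k := Nat.mul_le_mul_right _ H1
    rw [add_mul, one_mul] at h3
    refine ⟨?_, by omega, by omega⟩
    rcases H2 with H2 | H2
    · have := Nat.pow_le_pow_right (n := 4) (by norm_num) H2.le
      omega
    · have : 1 * bl k ≤ sh * bl k := Nat.mul_le_mul_right _ H2
      omega
  · have h3 : 1 * bl k ≤ N * bl k := Nat.mul_le_mul_right _ hN
    have := Nat.pow_le_pow_right (n := 4) (by norm_num) H2.le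
    omega

/-- a nonzero tap -/
theorem tap_ne {N g h sh τ : ℕ} (hN : 1 ≤ N) (H : Ok k N g h sh) (hτ : N * bl k ≤ τ)
    (hne : pseq k cl (τ - del k g h sh) ≠ 0) : ∃ l < gn k,
      τ % bl k + 4 ^ h = 4 ^ l + 4 ^ g ∨ τ % bl k + 4 ^ h = 4 ^ l + 4 ^ g + bl k := by
  obtain ⟨l, hl, h1⟩ := pseq_ne hne
  obtain ⟨b1, b2, b3⟩ := H.bounds hN
  refine ⟨l, hl, ?_⟩
  have hM := bl_pos k
  have h2 : (τ - del k g h sh) + sh * bl k + 4 ^ g = τ + 4 ^ h := by
    unfold del
    omega
  have h3 := Nat.div_add_mod (τ - del k g h sh) (bl k)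
  have h4 := Nat.div_add_mod τ (bl k)
  rw [h1] at h3
  have h5 : (τ - del k g h sh) / bl k * bl k + 4 ^ l + sh * bl k + 4 ^ g =
      τ / bl k * bl k + τ % bl k + 4 ^ h := by
    rw [mul_comm] at h3 h4
    omega
  have hr := Nat.mod_lt τ hM
  have f1 := four_le hl
  have f2 := four_le H.2.1
  have f3 := four_le H.2.2.1
  have h6 : ((τ - del k g h sh) / bl k + sh) * bl k + (4 ^ l + 4 ^ g) =
      τ / bl k * bl k + (τ % bl k + 4 ^ h) := by
    rw [add_mul]
    omega
  rcases lt_trichotomy ((τ - del k g h sh) / bl k + sh) (τ / bl k) with h7 | h7 | h7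
  · exfalso
    have : ((τ - del k g h sh) / bl k + sh + 1) * bl k ≤ τ / bl k * bl k :=
      Nat.mul_le_mul_right _ h7
    rw [add_mul, one_mul] at this
    omega
  · rw [h7] at h6
    left
    omega
  · right
    obtain ⟨c, hc⟩ : ∃ c, (τ - del k g h sh) / bl k + sh = τ / bl k + 1 + c :=
      ⟨(τ - del k g h sh) / bl k + sh - (τ / bl k + 1), by omega⟩
    rw [hc] at h6
    rcases Nat.eq_zero_or_pos c with rfl | hc0
    · rw [add_zero, add_mul, one_mul] at h6
      omega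
    · exfalso
      have : 1 * bl k ≤ c * bl k := Nat.mul_le_mul_right _ hc0
      rw [add_mul, add_mul, one_mul] at h6
      omega

/-- the taps at the places of the gates -/
theorem tap_at {N g h sh τ x : ℕ} (hN : 1 ≤ N) (H : Ok k N g h sh) (hτ : N * bl k ≤ τ)
    (hx : x < gn k) (hτx : τ % bl k = 4 ^ x) :
    pseq k cl (τ - del k g h sh) = if x = g then cl h (τ / bl k - sh) else 0 := by
  have hM := bl_pos k
  obtain ⟨b1, b2, b3⟩ := H.bounds hN
  by_cases hxg : x = g
  · rw [if_pos hxg]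
    subst hxg
    have h4 := Nat.div_add_mod τ (bl k)
    have h5 : N ≤ τ / bl k := (Nat.le_div_iff_mul_le hM).2 hτ
    have f3 := four_le H.2.2.1
    have h6 : τ - del k x h sh = 4 ^ h + bl k * (τ / bl k - sh) := by
      unfold del
      rw [Nat.mul_sub, mul_comm (bl k) sh]
      have h7 : sh * bl k ≤ bl k * (τ / bl k) := by
        rw [mul_comm]
        exact Nat.mul_le_mul_left _ (b3.trans h5)
      omega
    have h8 : 4 ^ h < bl k := by
      have : 0 < 4 ^ h := pow_pos (by norm_num) _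
      omega
    rw [pseq_at H.2.2.1 (by rw [h6, Nat.add_mul_mod_self_left, Nat.mod_eq_of_lt h8]), h6,
      Nat.add_mul_div_left _ _ hM, Nat.div_eq_of_lt h8, zero_add]
  · rw [if_neg hxg]
    by_contra hne
    obtain ⟨l, hl, h1⟩ := tap_ne hN H hτ hne
    rw [hτx] at h1
    have f0 := four_le hx
    have f1 := four_le hl
    have f2 := four_le H.2.1
    have f3 := four_le H.2.2.1
    rcases h1 with h1 | h1
    · exact hxg (sum2 h1 H.1.symm).1
    · omega

/-- two taps of different kinds at another place -/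
theorem tap_two {N g h sh g' h' sh' τ : ℕ} (hN : 1 ≤ N) (H : Ok k N g h sh)
    (H' : Ok k N g' h' sh') (hh : h ≠ h') (hτ : N * bl k ≤ τ)
    (hno : ∀ x < gn k, τ % bl k ≠ 4 ^ x) (h1 : pseq k cl (τ - del k g h sh) ≠ 0)
    (h2 : pseq k cl (τ - del k g' h' sh') ≠ 0) : False := by
  obtain ⟨l, hl, e1⟩ := tap_ne hN H hτ h1
  obtain ⟨l', hl', e2⟩ := tap_ne hN H' hτ h2
  have f1 := four_le hl
  have f2 := four_le H.2.1
  have f3 := four_le H.2.2.1
  have f4 := four_le hl'
  have f5 := four_le H'.2.1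
  have f6 := four_le H'.2.2.1
  have p1 : 0 < 4 ^ l := pow_pos (by norm_num) _
  have p2 : 0 < 4 ^ l' := pow_pos (by norm_num) _
  have e3 : 4 ^ g + 4 ^ l + 4 ^ h' = 4 ^ g' + 4 ^ l' + 4 ^ h := by
    rcases e1 with e1 | e1 <;> rcases e2 with e2 | e2 <;> omega
  have h3 := cnt3 e3 h
  have g1 : (if g = h then 1 else 0 : ℕ) = 0 := if_neg H.1
  have g2 : (if h' = h then 1 else 0 : ℕ) = 0 := if_neg fun e => hh e.symm
  have g3 : (if h = h then 1 else 0 : ℕ) = 1 := if_pos rfl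
  rw [g1, g2, g3] at h3
  have h4 : l = h := by
    by_contra h5
    rw [if_neg h5] at h3
    omega
  rw [h4] at e1
  rcases e1 with e1 | e1
  · exact hno g H.2.1 (by omega)
  · have := Nat.mod_lt τ (bl_pos k)
    omega

end

end Pool.Agent.H63OA
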